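import Pool.Agent.P.MP_d3fb3e_lc.Hide

/-! One stage of the construction, and the oracle. -/

namespace Pool.Agent.P.MP_d3fb3e_lc

open Finset Classical Filter
open Pool.Agent.Lib.helper21 (sz)
open Pool.Agent.Lib.helper26 (Raw)

/-- The cell `z` stores the truth value of the instance that it codes. -/
def Valid (S : Set ℕ) (σ : Cell → Dat) (z : Cell) : Prop :=
  z.1 + 1 ∈ S → (En (dp S z) z (σ z).2 ↔ src (orc σ) (up z))

theorem src_loc {σ τ : Cell → Dat} {z : Cell} (h : Agr sz (sz z) σ τ) :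
    src (orc σ) (up z) ↔ src (orc τ) (up z) :=
  wcs_loc fun _ ha => orc_loc fun y hy => h y (hy.trans ((reads_len ha).trans_lt (cell_len z)))

theorem Valid.loc (S : Set ℕ) (σ τ : Cell → Dat) (z : Cell) (h : Agr sz (sz z + 1) σ τ)
    (hz : Valid S σ z) : Valid S τ z := fun h1 => by
  rw [← h z (by omega), hz h1, src_loc fun y hy => h y (by omega)]

theorem code_inj {x x' : List Bool} {k k' : ℕ} (h : code x k = code x' k') : x = x' ∧ k = k' := by
  rw [code_eq, code_eq] at h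
  exact ⟨(pairW_inj h).2, enc_nat (pairW_inj h).1⟩

theorem rows_big {n e k : ℕ} {z : Cell} (hn : 2 ≤ n) (hz : n ≤ sz z) (he : 1 ≤ e) (hk : 5 * e ≤ k)
    (hp : k < par z) : (n ^ e) ^ (k + 6) < (rows z).card := by
  refine lt_of_lt_of_le ?_ ((Nat.pow_le_pow_left hz _).trans (card_rows z))
  rw [← pow_mul]
  refine Nat.pow_lt_pow_right hn (lt_of_lt_of_le ?_ (Nat.pow_le_pow_left (n := k + 2)
    (Nat.succ_le_succ hp) 2))
  nlinarith

/-- The program `P` does not reduce the test language of level `j + 2` to level `j + 1`. -/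
def Req (S : Set ℕ) (i : Prog ℕ × ℕ × ℕ × ℕ × ℕ) (σ : Cell → Dat) : Prop :=
  i.2.2.2.1 + 1 ∉ S → ∃ x, ∀ x' k' t,
    Run (orc σ) i.1 (fun r => if r = 0 then code x (5 * (i.2.1 + 2) + 1) else []) t
      (i.2.2.2.2 * (x.length + 1) ^ i.2.1) → t 0 = code x' k' → k' ≤ i.2.2.2.2 →
    ¬ (En (i.2.2.2.1 + 1) (i.2.2.2.1, 0, 5 * (i.2.1 + 2) + 1, x)
        (σ (i.2.2.2.1, 0, 5 * (i.2.1 + 2) + 1, x)).2 ↔ (x', k') ∈ WCS (orc σ) (i.2.2.2.1 + 1) i.2.2.1)

theorem stage (S : Set ℕ) (i : Prog ℕ × ℕ × ℕ × ℕ × ℕ) (σ : Cell → Dat) (n₀ : ℕ)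
    (hσ : ∀ z, Valid S σ z) : ∃ τ n', (∀ z, Valid S τ z) ∧ Agr sz n₀ σ τ ∧
      ∀ τ', Agr sz n' τ τ' → Req S i τ' := by
  obtain ⟨P, c, h, j, F⟩ := i
  by_cases hj : j + 1 ∈ S
  · exact ⟨σ, 0, hσ, fun _ _ => rfl, fun _ _ h => absurd hj h⟩
  set K := 5 * (c + 2) with hK
  set K' := K + F + h with hK'
  obtain ⟨L, l1, l2, l3⟩ := ((multi j (2 ^ K') (4 * (c + 2) * (K' + 2 ^ K' + 5))).and
    ((MP_d1c5a4_lc.ev_geom (ρ := 1 / 2) (by norm_num) (by norm_num) 1 (4 * (c + 2) * (K' + 6))).and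
      (eventually_ge_atTop (F * 2 ^ c + 2 * K' + n₀ + 3)))).exists
  set n := L ^ 4 with hn
  set M := n ^ (c + 2) with hM
  have n1 : L ≤ n := Nat.le_self_pow (by omega) _
  have n2 : n ≤ n ^ (c + 1) := Nat.le_self_pow (by omega) _
  have n3 : F * (n + 1) ^ c ≤ n ^ (c + 1) := by
    calc _ ≤ F * (2 * n) ^ c := Nat.mul_le_mul_left _ (Nat.pow_le_pow_left (by omega) _)
      _ = n ^ c * (F * 2 ^ c) := by ring
      _ ≤ _ := Nat.mul_le_mul_left _ (by omega)
  have n4 : n ^ (c + 1) * 3 ≤ M := Nat.mul_le_mul_left _ (by omega)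
  have n0 : 3 ≤ M := by omega
  have n5 : M + 3 ≤ M ^ 2 := by nlinarith
  have n6 : M ^ (K' + 6) ≤ 2 ^ n := by
    refine le_trans ?_ (Nat.pow_le_pow_right two_pos n1)
    rw [hM, hn, ← pow_mul, ← pow_mul, ← mul_assoc]
    rw [one_mul, one_div, inv_pow, ← div_eq_mul_inv, div_le_one (by positivity)] at l2
    exact_mod_cast l2
  let x := List.replicate n false
  let zs : Cell := (j, 0, K + 1, x)
  obtain ⟨π, p1, p2⟩ := hp_exists ⟨S, j + 1, K, K', n, M, zs, fun z => (σ z).2, fun z => (σ z).1⟩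
    (show 2 ≤ M by omega) (show K' ≤ M by omega) (le_trans (by
      show 16 * ((M + 3) * M ^ (K' + 1)) ≤ _
      calc _ ≤ M ^ 3 * (M ^ 2 * M ^ (K' + 1)) := Nat.mul_le_mul
            (le_trans (by norm_num) (Nat.pow_le_pow_left (show 3 ≤ M by omega) 3))
            (Nat.mul_le_mul_right _ n5)
        _ = _ := by ring) n6)
  set X : Ctx := ⟨S, j + 1, K, K', n, M, zs, fun z => (σ z).2, π⟩ with hX
  have x1 : 2 ≤ X.M := show 2 ≤ M by omega
  have x2 : X.K' ≤ X.M := show K' ≤ M by omega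
  obtain ⟨γ₁, c', g1, g2, g3⟩ := adversary X.sem X.Ok M (Ctx.query x1 x2 hj p2)
    ([P], fun r => if r = 0 then code x (K + 1) else []) (2 * (K + 1) + n + 1) (fun r => by
      simp only
      split_ifs
      · simp [length_code, x]
      · simp) ⟨∅, fun _ => false, ∅, fun _ _ _ => false⟩
    ⟨⟨fun z _ => by simp [Tm_const (show 1 ≤ sz z by have := cell_len z; omega)], by simp⟩,
      by simp, by simp⟩ (F * (n + 1) ^ c) (by omega)
  obtain ⟨q, q1, q2⟩ : ∃ q, X.small q ∧ ∀ x' k', c'.2 0 = code x' k' → k' ≤ F →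
      q = (j + 1, h, k', x') := by
    by_cases a : ∃ x' k', c'.2 0 = code x' k' ∧ k' ≤ F
    · obtain ⟨x', k', a1, a2⟩ := a
      have a3 := g2 0
      rw [a1, length_code] at a3
      exact ⟨(j + 1, h, k', x'), ⟨le_rfl, show k' + h ≤ K' by omega, show x'.length ≤ M by omega⟩,
        fun x'' k'' a4 _ => by obtain ⟨rfl, rfl⟩ := code_inj (a1.symm.trans a4); rfl⟩
    · exact ⟨(0, 0, 0, []), ⟨Nat.zero_le _, Nat.zero_le _, Nat.zero_le _⟩,
        fun x' k' a1 a2 => absurd ⟨x', k', a1, a2⟩ a⟩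
  obtain ⟨γ, v, ⟨i1, i2, i3⟩, i4, i5⟩ := Ctx.final x1 x2 hj p2 _ γ₁ g1 q1
  have i6 : γ.F.card ≤ M ^ (K + 5) :=
    calc _ ≤ M * (M ^ 2 * M ^ (K + 2)) :=
          i3.trans (Nat.mul_le_mul (by omega) (Nat.mul_le_mul_right _ n5))
      _ = _ := by ring
  obtain ⟨Φ, f1, f2⟩ := Ctx.box x1 p2 rfl (show 1 ≤ L by omega) le_rfl l1
    (by show M ^ _ ≤ _; rw [hM, hn, ← pow_mul, ← pow_mul, ← mul_assoc]) i1.1
    ((insert q (γ.Z.image up)).filter
      fun q => X.small q ∧ ∀ ω, γ.Ag ω → X.AF ω → ¬ src (X.O γ.b ω) q)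
    ((card_filter_le _ _).trans ((card_insert_le _ _).trans (by
      have a1 : γ.Z.card ≤ M * (M + 2) := i2.trans (Nat.mul_le_mul_right _ (by omega))
      have a2 := card_image_le (s := γ.Z) (f := up)
      show _ ≤ M ^ 3
      nlinarith))) (fun q hq => (mem_filter.1 hq).2)
    (fun z h1 h2 => (i6.trans (Nat.pow_le_pow_right (by omega) (by omega))).trans_lt
      (rows_big (by omega) h1 (by omega) le_rfl h2))
    fun z h1 h2 => lt_of_le_of_lt (by
      have a1 : M ^ (K + 5) ≤ M ^ (K' + 5) := Nat.pow_le_pow_right (by omega) (by omega)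
      have a2 : M ^ (K' + 4) ≤ M ^ (K' + 5) := Nat.pow_le_pow_right (by omega) (by omega)
      have a3 : M ^ (K' + 5) * 2 ≤ M ^ (K' + 6) := Nat.mul_le_mul_left _ (by omega)
      show _ + M ^ (K' + 4) ≤ M ^ (K' + 6)
      omega) (rows_big (n := n) (e := c + 2) (k := K') (by omega) h1 (by omega) (by omega) h2)
  let β : (Cell → Dat) → Cell → Bool := fun τ z =>
    if z = zs then !v else decide (src (orc τ) (up z))
  obtain ⟨τ, hτ⟩ := fix_exists sz (fun τ z => (π z, X.wld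
    (fun z => if z ∈ γ.Z then γ.b z else β τ z) (fun z => Φ z (β τ z)) z)) fun τ τ' z hz => by
      simp only [Ctx.wld, β, src_loc hz]
  have t1 : orc τ = X.O (fun z => if z ∈ γ.Z then γ.b z else β τ z) fun z => Φ z (β τ z) :=
    congrArg orc (funext hτ)
  have t2 : ∀ q' ∈ insert q (γ.Z.image up), ∀ w, X.Good γ q' w → (src (orc τ) q' ↔ w = true) := by
    intro q' hq w hw
    rw [t1, hw.1.src (b' := γ.b) fun z hz => if_pos hz]
    rcases hw.2 with a | ⟨rfl, a⟩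
    · exact a _ (f2 _).1
    · exact iff_of_false ((f2 _).2 q' (mem_filter.2 ⟨hq, a⟩)) (by simp)
  have t3 : Agr sz n σ τ := fun z hz => by
    rw [hτ z, p1 z hz, Ctx.wld, if_pos hz]
  refine ⟨τ, M + sz zs + 1, fun z => ?_, fun z hz => t3 z (by omega), fun τ' hτ' _ =>
    ⟨x, fun x' k' t r1 r2 r3 r4 => ?_⟩⟩
  · by_cases h1 : sz z < n
    · exact Valid.loc S σ τ z (fun y hy => t3 y (by omega)) (hσ z)
    intro h2
    have h3 : β τ z = decide (src (orc τ) (up z)) := if_neg fun h => hj (by rwa [h] at h2)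
    rw [hτ z, Ctx.wld, if_neg h1]
    by_cases h4 : X.U z
    · rw [if_pos h4, f1 z _ (not_lt.1 h1) h4, h3, decide_eq_true_eq]
    rw [if_neg h4, En_const]
    by_cases h5 : z ∈ γ.Z
    · rw [if_pos h5, t2 _ (mem_insert_of_mem (mem_image_of_mem up h5)) _ (i1.2 z h5 h2)]
    · rw [if_neg h5, h3, decide_eq_true_eq]
  · have a1 : ∀ a : List Bool, a.length ≤ M → orc τ' a = orc τ a := fun a ha =>
      (orc_loc fun z hz => hτ' z (by omega)).symm
    have a2 := g3 (orc τ') (i4 ⟨_, _, fun z hz => if_pos hz, (f2 (β τ)).1,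
      fun a ha => (a1 a ha).trans (congrFun t1 a)⟩)
    have a3 := r1.sim'
    simp only [x, List.length_replicate] at a3
    obtain rfl := a3.symm.trans a2
    obtain rfl := q2 x' k' r2 r3
    have a4 : n ≤ sz zs := by have := cell_len zs; simp only [zs, x, List.length_replicate] at this ⊢; omega
    have a5 : dp S zs = j + 1 := if_neg hj
    have a6 : X.U zs := ⟨Or.inl rfl, Or.inr ⟨a5.ge, Nat.lt_succ_self _⟩⟩
    have a7 := f1 zs (β τ zs) a4 a6
    have a8 : (τ' zs).2 = Φ zs (β τ zs) := by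
      rw [← hτ' zs (by omega), hτ zs, Ctx.wld, if_neg (not_lt.2 a4), if_pos a6]
    have a9 := (wcs_loc fun a ha => a1 a ((reads_len ha).trans q1.2.2)).trans
      (t2 _ (mem_insert_self _ _) v i5)
    rw [← a8, show β τ zs = !v from if_pos rfl, show dp X.S zs = j + 1 from a5] at a7
    have := a7.symm.trans (r4.trans a9)
    simp at this

theorem oracle (S : Set ℕ) : ∃ A, ∀ t, 1 ≤ t → (W A t = W A (t + 1) ↔ t ∈ S) := by
  obtain ⟨σ₀, h0⟩ := fix_exists sz (fun (σ : Cell → Dat) z =>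
    (fun _ => false, fun _ _ => decide (src (orc σ) (up z)))) fun σ τ z hz => by
      simp only [src_loc hz]
  have : Nonempty (Prog ℕ) := ⟨.skip⟩
  obtain ⟨σ, h1, h2⟩ := generic sz (Valid S) (Valid.loc S) (Req S) σ₀
    (fun z _ => by rw [h0 z, En_const, decide_eq_true_eq]) (stage S)
  refine ⟨orc σ, fun t ht => ?_⟩
  obtain ⟨j, rfl⟩ := Nat.exists_eq_add_of_le' ht
  refine ⟨fun h => by_contra fun hj => ?_, fun hj => (W_mono _ _).antisymm fun L ⟨h, hL⟩ =>
    hL.dcd j h j fun x k => ?_⟩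
  · have a1 := (Red.refl {p : List Bool × ℕ | En (j + 1) (j, 0, p.2, p.1)
      (σ (j, 0, p.2, p.1)).2}).dcd (σ := σ) j 0 (j + 1) fun _ _ => Iff.rfl
    rw [← h] at a1
    obtain ⟨h, P, f, c, -, a1⟩ := a1
    obtain ⟨x, a2⟩ := h2 (P, c, h, j, f (5 * (c + 2) + 1)) hj
    obtain ⟨x', k', t, b1, b2, b3, b4⟩ := a1 x (5 * (c + 2) + 1)
    exact a2 x' k' t b1 b2 b3 b4
  · have := h1 (j, h, k, x) hj
    rw [dp, if_pos hj] at this
    exact this.symm

end Pool.Agent.P.MP_d3fb3e_lc
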