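import Pool.Agent.P.MP_d3fb3e_lc.Defs
import Pool.Agent.P.MP_d1c5a4_lc.Jun

/-! Oracle circuits: the addresses they read, and their values as functions of the oracle. -/

namespace Pool.Agent.P.MP_d3fb3e_lc

open Finset Classical
open Pool.Agent.P.MP_d1c5a4_lc (Fn Jun NN)

variable {x : List Bool} {A A' : List Bool → Bool} {V : Finset ℕ}

theorem bit_lt {a u : ℕ} (h : bit x a u = true) : u < x.length := by
  by_contra hc
  rw [bit, List.getD_eq_default _ _ (le_trans (by omega) (Nat.right_le_pair a u))] at h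
  exact absurd h (by simp)

theorem kind_lt {u : ℕ} (h : kind x u ≠ 4) : u < x.length := by
  unfold kind at h
  split_ifs at h with h0 h1 h2 h3
  exacts [bit_lt h0, bit_lt h1, bit_lt h2, bit_lt h3, absurd rfl h]

theorem kids_len (x : List Bool) (u : ℕ) : (kids x u).length ≤ x.length :=
  (List.length_filter_le _ _).trans (by simp)

theorem ok_mono {h t t' : ℕ} {b : Bool} {u : ℕ} (ht : t ≤ t') (hu : ok x h t b u) :
    ok x h t' b u := by
  induction h generalizing t t' b u with
  | zero => exact hu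
  | succ h ih =>
    refine Or.imp_right (fun ⟨h1, h2, h3, h4⟩ => ⟨h1, h2, fun a => (h3 a).trans ht,
      fun v hv => ih ?_ (h4 v hv)⟩) hu
    split_ifs <;> omega

theorem val_congr {h u : ℕ} (hk : ∀ v ∈ kids x u, val A x V h v = val A' x V h v)
    (h3 : kind x u = 3 → A ((kids x u).map (val A x V h)) = A' ((kids x u).map (val A x V h))) :
    val A x V (h + 1) u = val A' x V (h + 1) u := by
  have e := List.map_congr_left hk
  have e1 : (kids x u).all (val A x V h) = (kids x u).all (val A' x V h) := by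
    rw [Bool.eq_iff_iff, List.all_eq_true, List.all_eq_true]
    exact forall₂_congr fun v hv => by rw [hk v hv]
  have e2 : (kids x u).any (val A x V h) = (kids x u).any (val A' x V h) := by
    rw [Bool.eq_iff_iff, List.any_eq_true, List.any_eq_true]
    exact exists_congr fun v => and_congr_right fun hv => by rw [hk v hv]
  simp only [val, e1, e2, ← e]
  split_ifs with a b c d
  exacts [rfl, rfl, rfl, h3 d, rfl]

theorem val_inp {h u : ℕ} (hu : kind x u = 0) : val A x V h u = decide (u ∈ V) := by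
  cases h <;> simp [val, hu]

/-- Parts of a circuit without long queries. -/
theorem val_const {h t : ℕ} {b : Bool} {u : ℕ} (hu : ok x h t b u)
    (hb : b = false ∨ (t = 0 ∧ ∀ a : List Bool, a.length ≤ 2 → A a = A' a)) :
    val A x V h u = val A' x V h u := by
  induction h generalizing t b u with
  | zero => rfl
  | succ h ih =>
    rcases hu with h0 | ⟨-, h2, h3, h4⟩
    · rw [val_inp h0, val_inp h0]
    refine val_congr (fun v hv => ih (h4 v hv) ?_) fun h5 => ?_
    · rcases hb with rfl | ⟨rfl, hb⟩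
      · exact Or.inl (by simp)
      · exact Or.inr ⟨by simp, hb⟩
    · rcases hb with rfl | ⟨rfl, hb⟩
      · exact absurd (h2 h5) (by simp)
      · exact hb _ (by rw [List.length_map]; omega)

/-- The address read at the node `u`. -/
def adr (x : List Bool) (V : Finset ℕ) (h u : ℕ) : List Bool :=
  (kids x u).map (val (fun _ => false) x V h)

theorem adr_eq {h t u : ℕ} (hk : ∀ v ∈ kids x u, ok x h t false v) :
    (kids x u).map (val A x V h) = adr x V h u :=
  List.map_congr_left fun v hv => val_const (hk v hv) (Or.inl rfl)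

/-- The addresses read on the input `V`. -/
def rdV (x : List Bool) (h : ℕ) (V : Finset ℕ) : Finset (List Bool) :=
  (range h ×ˢ range x.length).image fun p => adr x V p.1 p.2

theorem val_loc {H h t : ℕ} {b : Bool} {u : ℕ} (hu : ok x h t b u) (hH : h ≤ H)
    (hA : ∀ a ∈ rdV x H V, A a = A' a) : val A x V h u = val A' x V h u := by
  induction h generalizing t b u with
  | zero => rfl
  | succ h ih =>
    rcases hu with h0 | ⟨-, -, -, h4⟩
    · rw [val_inp h0, val_inp h0]
    refine val_congr (fun v hv => ih (h4 v hv) (by omega)) fun h5 => ?_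
    simp only [h5, if_true] at h4
    rw [adr_eq h4]
    exact hA _ (mem_image.2 ⟨(h, u), by simpa using ⟨by omega, kind_lt (by omega)⟩, rfl⟩)

/-- The addresses read on all inputs of weight `k`. -/
def reads (x : List Bool) (k h : ℕ) : Finset (List Bool) :=
  (powersetCard k (range x.length)).biUnion (rdV x h)

theorem card_rdV (x : List Bool) (h : ℕ) (V : Finset ℕ) : (rdV x h V).card ≤ h * x.length :=
  card_image_le.trans (by simp)

theorem card_reads (x : List Bool) (k h : ℕ) {M : ℕ} (hM : 2 ≤ M) (hx : x.length ≤ M) :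
    (reads x k h).card ≤ M ^ (k + h + 1) := by
  refine (card_biUnion_le_card_mul _ _ _ fun V _ => card_rdV x h V).trans ?_
  rw [card_powersetCard, card_range, pow_succ, pow_add, mul_assoc]
  exact Nat.mul_le_mul ((Nat.choose_le_pow _ _).trans (Nat.pow_le_pow_left hx _))
    (Nat.mul_le_mul (Nat.lt_pow_self hM).le hx)

theorem reads_len {k h : ℕ} {a : List Bool} (ha : a ∈ reads x k h) : a.length ≤ x.length := by
  obtain ⟨V, -, ha⟩ := mem_biUnion.1 ha
  obtain ⟨p, -, rfl⟩ := mem_image.1 ha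
  simpa [adr] using kids_len x p.2

theorem mem_wcs {t h k : ℕ} : (x, k) ∈ WCS A t h ↔ ∃ V ∈ powersetCard k (range x.length),
    (ok x h t true 0 ∧ ∀ u ∈ V, kind x u = 0) ∧ val A x V h 0 = true :=
  ⟨fun ⟨h1, V, h2, h3, h4⟩ => ⟨V, mem_powersetCard.2
    ⟨fun u hu => mem_range.2 (kind_lt (by have := h3 u hu; simp only at this; omega)), h2⟩,
      ⟨h1, h3⟩, h4⟩,
    fun ⟨V, h1, ⟨h2, h3⟩, h4⟩ => ⟨h2, V, (mem_powersetCard.1 h1).2, h3, h4⟩⟩

theorem wcs_wit {t h k : ℕ} (hx : (x, k) ∈ WCS A t h) : ∃ R ⊆ reads x k h,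
    R.card ≤ h * x.length ∧ ∀ A', (∀ a ∈ R, A a = A' a) → (x, k) ∈ WCS A' t h := by
  obtain ⟨V, h1, h2, h3⟩ := mem_wcs.1 hx
  exact ⟨rdV x h V, subset_biUnion_of_mem (rdV x h) h1, card_rdV x h V, fun A' hA =>
    mem_wcs.2 ⟨V, h1, h2, (val_loc h2.1 le_rfl hA).symm.trans h3⟩⟩

theorem wcs_loc {t h k : ℕ} (hA : ∀ a ∈ reads x k h, A a = A' a) :
    (x, k) ∈ WCS A t h ↔ (x, k) ∈ WCS A' t h :=
  ⟨fun hx => let ⟨_, h1, _, h2⟩ := wcs_wit hx; h2 _ fun a ha => hA a (h1 ha),
    fun hx => let ⟨_, h1, _, h2⟩ := wcs_wit hx; h2 _ fun a ha => (hA a (h1 ha)).symm⟩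

variable {β : Type}

theorem nn_small {W S t : ℕ} (hS : 2 ≤ S) (K : List ℕ) (hK : K.length ≤ 2) {g : ℕ → Fn β}
    (hg : ∀ v ∈ K, NN W S t (g v)) :
    NN (W + W) (S * S) t (fun y => ∀ v ∈ K, g v y) ∧ NN (W + W) (S * S) t fun y => ∃ v ∈ K, g v y := by
  have hS' : 1 ≤ S * S := by nlinarith
  rcases K with _ | ⟨v, _ | ⟨w, _ | ⟨_, _⟩⟩⟩
  · exact ⟨(NN.of_jun hS' (Jun.const _ True)).congr (by simp),
      (NN.of_jun hS' (Jun.const _ False)).congr (by simp)⟩
  · have := (hg v (by simp)).mono (Nat.le_add_right W W) (show S ≤ S * S by nlinarith)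
    exact ⟨this.congr (by simp), this.congr (by simp)⟩
  · have := NN.and_or hS (hg v (by simp)) (hg w (by simp))
    exact ⟨this.1.congr (by simp), this.2.congr (by simp)⟩
  · simp at hK

theorem nn_large {W S t : ℕ} (hS : 2 ≤ S) (K : List ℕ) (hK : K.length ≤ S) {g : ℕ → Fn β}
    (hg : ∀ v ∈ K, NN W S (t + 1) (g v)) (hg' : ∀ v ∈ K, NN W S (t + 1) fun y => ¬ g v y) :
    NN (W + W) (S * S) (t + 2) (fun y => ∀ v ∈ K, g v y) ∧
      NN (W + W) (S * S) (t + 2) fun y => ∃ v ∈ K, g v y := by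
  have hS' : 1 ≤ S * S := by nlinarith
  have hc := (List.toFinset_card_le K).trans hK
  have h1 := NN.ex K.toFinset (by omega) hc (by simpa using hg)
  have h2 := NN.ex K.toFinset (by omega) hc (by simpa using hg')
  exact ⟨((h2.neg hS').mono (Nat.le_add_right W W) le_rfl).congr (by simp),
    ((h1.up hS').mono (Nat.le_add_right W W) le_rfl).congr (by simp)⟩

variable {O : (β → Bool) → List Bool → Bool} (hO : ∀ a, Jun 1 fun y => O y a = true)
  (hs : ∀ a : List Bool, a.length ≤ 2 → ∀ y y', O y a = O y' a)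
include hO hs

theorem val_nn {M : ℕ} (hM : 2 ≤ M) (hx : x.length ≤ M) {h t : ℕ} {b : Bool} {u : ℕ}
    (hu : ok x h t b u) : NN (2 ^ h) (M ^ 2 ^ h) t (fun y => val (O y) x V h u = true) ∧
      NN (2 ^ h) (M ^ 2 ^ h) t fun y => ¬ val (O y) x V h u = true := by
  have hS : ∀ h, M ≤ M ^ 2 ^ h := fun h => Nat.le_self_pow (by positivity) _
  have cst : ∀ (h t : ℕ) (f : (β → Bool) → Bool), (∀ y y', f y = f y') →
      NN (2 ^ h) (M ^ 2 ^ h) t (fun y => f y = true) ∧
        NN (2 ^ h) (M ^ 2 ^ h) t fun y => ¬ f y = true := fun h t f hf =>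
    have h1 : 1 ≤ M ^ 2 ^ h := le_trans (by omega) (hS h)
    ⟨NN.of_jun h1 ((Jun.const _ (f (fun _ => true) = true)).congr fun y => by rw [hf y]),
      NN.of_jun h1 ((Jun.const _ (¬ f (fun _ => true) = true)).congr fun y => by rw [hf y])⟩
  induction h generalizing t b u with
  | zero => exact cst 0 t _ fun _ _ => rfl
  | succ h ih =>
    have h1 : 1 ≤ M ^ 2 ^ (h + 1) := le_trans (by omega) (hS _)
    rcases hu with h0 | ⟨-, -, h3, h4⟩
    · exact cst _ t _ fun _ _ => by rw [val_inp h0, val_inp h0]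
    by_cases h5 : kind x u = 3
    · simp only [h5, if_true] at h4
      have e : ∀ y, val (O y) x V (h + 1) u = O y (adr x V h u) := fun y => by
        simp [val, h5, adr_eq h4]
      simp only [e]
      exact ⟨NN.of_jun h1 ((hO _).mono Nat.one_le_two_pow),
        NN.of_jun h1 ((hO _).not.mono Nat.one_le_two_pow)⟩
    by_cases h6 : 2 < (kids x u).length ∧ t = 1
    · refine cst _ t _ fun y y' => val_congr (fun v hv => val_const (h4 v hv) (Or.inr
        ⟨by simp [h6], fun a ha => hs a ha y y'⟩)) fun h => absurd h h5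
    have key : ∀ g : ℕ → Fn β, (∀ v ∈ kids x u, NN (2 ^ h) (M ^ 2 ^ h)
        (if 2 < (kids x u).length then t - 1 else t) (g v)) → (∀ v ∈ kids x u, NN (2 ^ h)
        (M ^ 2 ^ h) (if 2 < (kids x u).length then t - 1 else t) fun y => ¬ g v y) →
        NN (2 ^ (h + 1)) (M ^ 2 ^ (h + 1)) t (fun y => ∀ v ∈ kids x u, g v y) ∧
          NN (2 ^ (h + 1)) (M ^ 2 ^ (h + 1)) t fun y => ∃ v ∈ kids x u, g v y := by
      intro g g1 g2
      rw [pow_succ 2 h, mul_two, pow_add]
      by_cases h7 : 2 < (kids x u).length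
      · obtain ⟨t, rfl⟩ : ∃ t', t = t' + 2 := ⟨t - 2, by have := h3 h7; omega⟩
        simp only [h7, if_true] at g1 g2
        exact nn_large (hM.trans (hS h)) _ ((kids_len x u).trans (hx.trans (hS h))) g1 g2
      · simp only [h7, if_false] at g1
        exact nn_small (hM.trans (hS h)) _ (by omega) g1
    obtain ⟨k1, k2⟩ := key _ (fun v hv => (ih (h4 v hv)).1) fun v hv => (ih (h4 v hv)).2
    obtain ⟨k3, k4⟩ := key _ (fun v hv => (ih (h4 v hv)).2)
      fun v hv => (ih (h4 v hv)).1.congr fun y => not_not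
    by_cases h0 : kind x u = 0
    · exact cst _ t _ fun _ _ => by rw [val_inp h0, val_inp h0]
    by_cases h8 : kind x u = 1
    · exact ⟨k4.congr (by simp [val, h8]), k1.congr (by simp [val, h8])⟩
    by_cases h9 : kind x u = 2
    · exact ⟨k2.congr (by simp [val, h9]), k3.congr (by simp [val, h9])⟩
    · exact ⟨k1.congr (by simp [val, h0, h8, h9, h5]), k4.congr (by simp [val, h0, h8, h9, h5])⟩

theorem wcs_nn {M : ℕ} (hM : 2 ≤ M) (hx : x.length ≤ M) {h t k K j : ℕ} (hK : k + h ≤ K)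
    (ht : t ≤ j + 1) :
    NN (2 ^ K) (M ^ (K + 2 ^ K)) (j + 1) fun y => (x, k) ∈ WCS (O y) t h := by
  have h1 : 1 ≤ M ^ 2 ^ h := Nat.one_le_pow _ _ (by omega)
  have h2 : 2 ^ h ≤ 2 ^ K := Nat.pow_le_pow_right two_pos (by omega)
  refine ((NN.ex (W := 2 ^ h) (S := M ^ 2 ^ h) (m := M ^ k) (j := j)
    ((powersetCard k (range x.length)).filter fun V => ok x h t true 0 ∧ ∀ u ∈ V, kind x u = 0)
    (Nat.one_le_pow _ _ (by omega)) ((card_filter_le _ _).trans ?_)
    (g := fun V y => val (O y) x V h 0 = true) fun V hV =>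
      (val_nn hO hs hM hx (mem_filter.1 hV).2.1).1.le h1 ht).mono h2 ?_).congr fun y => ?_
  · rw [card_powersetCard, card_range]
    exact (Nat.choose_le_pow _ _).trans (Nat.pow_le_pow_left hx _)
  · rw [← pow_add]
    exact Nat.pow_le_pow_right (by omega) (by omega)
  · simp only [mem_wcs, mem_filter, and_assoc]

end Pool.Agent.P.MP_d3fb3e_lc
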