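import Pool.Agent.P.MP_d3fb3e_lc.Incl

/-! The circuit that reads a tree of oracle bits. -/

namespace Pool.Agent.P.MP_d3fb3e_lc

open Classical
open Pool.Agent.Lib.helper21 (Bd Rl RealT Enc pairW PT sz)
open Pool.Agent.Lib.helper26

/-- The alternating tree of fan-in `m` with leaves `κ`; the flag says that the top gate is AND. -/
def Tm (m : ℕ) (κ : ℕ → Bool) : ℕ → Bool → ℕ → Prop
  | 0, _, v => κ v = true
  | d + 1, true, v => ∀ i < m, Tm m κ d false (v * m + i)
  | d + 1, false, v => ∃ i < m, Tm m κ d true (v * m + i)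

theorem Tm_const {m : ℕ} (hm : 1 ≤ m) (b : Bool) (d : ℕ) (c : Bool) (v : ℕ) :
    Tm m (fun _ => b) d c v ↔ b = true := by
  induction d generalizing c v with
  | zero => rfl
  | succ d ih =>
    cases c
    · simp only [Tm, ih]
      exact ⟨fun ⟨_, _, h⟩ => h, fun h => ⟨0, hm, h⟩⟩
    · simp only [Tm, ih]
      exact ⟨fun h => h 0 hm, fun h _ _ => h⟩

/-- The characteristic word of `V`. -/
def rowOf (M : ℕ) (V : Finset ℕ) : List Bool := (List.range M).map fun i => decide (i ∈ V)

/-- The kinds of the gates. -/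
def dty (m d M P u : ℕ) : ℕ :=
  if u < d * m ^ d then (if u / m ^ d % 2 = 0 then 4 else 2) else
  if u < (d + 1) * m ^ d then 3 else
  if u < (d + 1) * m ^ d + 2 * P then (if (u - (d + 1) * m ^ d) % 2 = 0 then 2 else 4) else
  if u < (d + 1) * m ^ d + 2 * P + M then 0 else 4

/-- The wires. -/
def dK (m d M P : ℕ) (Y : ℕ → List Bool) (u : ℕ) : List ℕ :=
  if u < d * m ^ d then (List.range m).map fun i => (u / m ^ d + 1) * m ^ d + (u % m ^ d * m + i)
  else if u < (d + 1) * m ^ d then
    ((List.range (Y (u - d * m ^ d)).length).map fun i =>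
      (d + 1) * m ^ d + (2 * i + cond ((Y (u - d * m ^ d)).getD i false) 1 0)) ++
    (List.range M).map fun i => (d + 1) * m ^ d + 2 * P + i
  else []

/-- The circuit. -/
def dC (m d M P : ℕ) (Y : ℕ → List Bool) : List Bool :=
  mkC ((d + 1) * m ^ d + 2 * P + M + 5) (dty m d M P) (dK m d M P Y)

theorem PT_dC {α : Type} [Enc α] (d : ℕ) {m M P : α → ℕ} {Y : α → ℕ → List Bool} (hm : PT m)
    (hM : PT M) (hP : PT P) (hY : PT fun p : α × ℕ => Y p.1 p.2) :
    PT fun a => dC (m a) d (M a) (P a) (Y a) := by
  refine PT_mkC (by fun_prop) ?_ ?_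
  · simp only [dty, ← Bool.cond_decide]
    fun_prop
  · have h1 := hY.comp (g := fun p : α × ℕ => (p.1, p.2 - d * m p.1 ^ d)) (by fun_prop)
    have h2 := h1.comp (g := fun p : (α × ℕ) × ℕ => p.1) (by fun_prop)
    simp only [dK, ← Bool.cond_decide]
    refine PT.cond (by fun_prop) (by fun_prop) (PT.cond (by fun_prop) (PT.append
      (PT.map (PT.range h1.length) ?_) (by fun_prop)) (by fun_prop))
    exact PT.add (by fun_prop) (PT.add (by fun_prop)
      (PT.cond (h2.getD (by fun_prop) (by fun_prop)) (by fun_prop) (by fun_prop)))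

variable {m d M P : ℕ} {Y : ℕ → List Bool}

theorem kind_dC (u : ℕ) : kind (dC m d M P Y) u = dty m d M P u := by
  rw [dC, kind_mkC (by omega) fun u => by unfold dty; split_ifs <;> omega]
  split_ifs with h
  · rfl
  · have : d * m ^ d ≤ (d + 1) * m ^ d := Nat.mul_le_mul_right _ (by omega)
    unfold dty
    split_ifs <;> omega

theorem dC_const {i : ℕ} (hi : i < P) (b : Bool) (A : List Bool → Bool) (V : Finset ℕ) (t : ℕ) :
    ok (dC m d M P Y) 1 t false ((d + 1) * m ^ d + (2 * i + cond b 1 0)) ∧
      val A (dC m d M P Y) V 1 ((d + 1) * m ^ d + (2 * i + cond b 1 0)) = b := by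
  have h0 : d * m ^ d ≤ (d + 1) * m ^ d := Nat.mul_le_mul_right _ (by omega)
  have hb : cond b 1 0 ≤ 1 := by cases b <;> simp
  have h1 : dK m d M P Y ((d + 1) * m ^ d + (2 * i + cond b 1 0)) = [] := by
    rw [dK, if_neg (by omega), if_neg (by omega)]
  have h2 : kids (dC m d M P Y) ((d + 1) * m ^ d + (2 * i + cond b 1 0)) = [] := by
    rw [dC, kids_mkC (by omega) (by simp [h1]) (by simp [h1]), h1]
  have h3 : kind (dC m d M P Y) ((d + 1) * m ^ d + (2 * i + cond b 1 0)) = cond b 4 2 := by
    rw [kind_dC, dty, if_neg (by omega), if_neg (by omega), if_pos (by omega),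
      Nat.add_sub_cancel_left]
    cases b <;> simp [Nat.add_mod]
  rw [ok, val, h2, h3]
  cases b <;> simp

theorem dC_inp (u : ℕ) : kind (dC m d M P Y) u = 0 ↔
    (d + 1) * m ^ d + 2 * P ≤ u ∧ u < (d + 1) * m ^ d + 2 * P + M := by
  have h0 : d * m ^ d ≤ (d + 1) * m ^ d := Nat.mul_le_mul_right _ (by omega)
  rw [kind_dC, dty]
  split_ifs <;> simp only [false_iff, true_iff] <;> omega

theorem dC_node (hm : 1 ≤ m) (hY : ∀ v < m ^ d, (Y v).length ≤ P) (A : List Bool → Bool)
    (V : Finset ℕ) (j : ℕ) : ∀ e v, e + j = d → v < m ^ e →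
    ok (dC m d M P Y) (j + 2) (j + 1) true (e * m ^ d + v) ∧
      (val A (dC m d M P Y) V (j + 2) (e * m ^ d + v) = true ↔ Tm m (fun v => A (Y v ++
        (List.range M).map fun i => decide ((d + 1) * m ^ d + 2 * P + i ∈ V))) j
        (decide (e % 2 = 0)) v) := by
  have hQ : 0 < m ^ d := by positivity
  have h0 : (d + 1) * m ^ d = d * m ^ d + m ^ d := Nat.succ_mul _ _
  induction j with
  | zero =>
    rintro e v rfl hv
    simp only [Nat.add_zero] at *
    have h1 : dK m e M P Y (e * m ^ e + v) = ((List.range (Y v).length).map fun i =>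
        (e + 1) * m ^ e + (2 * i + cond ((Y v).getD i false) 1 0)) ++
        (List.range M).map fun i => (e + 1) * m ^ e + 2 * P + i := by
      rw [dK, if_neg (by omega), if_pos (by omega), Nat.add_sub_cancel_left]
    have hb : ∀ b : Bool, cond b 1 0 ≤ 1 := fun b => by cases b <;> simp
    have hl := hY v hv
    have h2 : kids (dC m e M P Y) (e * m ^ e + v) = dK m e M P Y (e * m ^ e + v) := by
      refine kids_mkC (by omega) ?_ ?_
      · rw [h1, List.pairwise_append, List.pairwise_map, List.pairwise_map]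
        refine ⟨List.pairwise_lt_range.imp fun {a b} h => ?_,
          List.pairwise_lt_range.imp fun h => by omega, ?_⟩
        · have := hb ((Y v).getD a false)
          omega
        · simp only [List.mem_map, List.mem_range]
          rintro _ ⟨a, ha, rfl⟩ _ ⟨b, -, rfl⟩
          have := hb ((Y v).getD a false)
          omega
      · simp only [h1, List.mem_append, List.mem_map, List.mem_range]
        rintro _ (⟨a, ha, rfl⟩ | ⟨a, ha, rfl⟩)
        · have := hb ((Y v).getD a false)
          omega
        · omega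
    have h3 : kind (dC m e M P Y) (e * m ^ e + v) = 3 := by
      rw [kind_dC, dty, if_neg (by omega), if_pos (by omega)]
    constructor
    · refine Or.inr ⟨by omega, fun _ => rfl, fun _ => le_rfl, ?_⟩
      simp only [h2, h1, h3, if_true, List.mem_append, List.mem_map, List.mem_range]
      rintro _ (⟨a, ha, rfl⟩ | ⟨a, ha, rfl⟩)
      · exact (dC_const (by omega) _ A V _).1
      · exact Or.inl ((dC_inp _).2 (by omega))
    · rw [val, h3, h2, h1, List.map_append, List.map_map, List.map_map, Tm]
      simp only [show (3 : ℕ) ≠ 0 by omega, show (3 : ℕ) ≠ 1 by omega, show (3 : ℕ) ≠ 2 by omega,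
        if_false, if_true]
      refine iff_of_eq (congrArg (fun l => A l = true) (congrArg₂ _ ?_ ?_))
      · refine List.ext_getElem (by simp) fun i h _ => ?_
        have hi : i < (Y v).length := by simpa using h
        simp only [List.getElem_map, List.getElem_range, Function.comp,
          (dC_const (hi.trans_le hl) _ A V 0).2, List.getD_eq_getElem _ _ hi]
      · exact List.map_congr_left fun i hi => val_inp ((dC_inp _).2 (by
          have := List.mem_range.1 hi; beta_reduce; omega))
  | succ j ih =>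
    intro e v he hv
    have a1 : m ^ (e + 1) ≤ m ^ d := Nat.pow_le_pow_right hm (by omega)
    have a2 : ∀ i < m, v * m + i < m ^ (e + 1) := fun i hi => by
      rw [pow_succ]; nlinarith
    have a3 : v < m ^ d := hv.trans_le (Nat.pow_le_pow_right hm (by omega))
    have a4 : (e + 1) * m ^ d ≤ d * m ^ d := Nat.mul_le_mul_right _ (by omega)
    have a5 : (e + 1) * m ^ d = e * m ^ d + m ^ d := Nat.succ_mul _ _
    have a6 : (e * m ^ d + v) / m ^ d = e := by
      rw [Nat.add_comm, Nat.add_mul_div_right _ _ hQ, Nat.div_eq_of_lt a3, Nat.zero_add]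
    have h1 : dK m d M P Y (e * m ^ d + v) =
        (List.range m).map fun i => (e + 1) * m ^ d + (v * m + i) := by
      rw [dK, if_pos (by omega), a6, Nat.mul_add_mod_of_lt a3]
    have h2 : kids (dC m d M P Y) (e * m ^ d + v) = dK m d M P Y (e * m ^ d + v) := by
      refine kids_mkC (by omega) ?_ ?_
      · rw [h1, List.pairwise_map]
        exact List.pairwise_lt_range.imp fun h => by omega
      · simp only [h1, List.mem_map, List.mem_range]
        rintro _ ⟨a, ha, rfl⟩
        have := a2 a ha
        omega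
    have h3 : kind (dC m d M P Y) (e * m ^ d + v) = if e % 2 = 0 then 4 else 2 := by
      rw [kind_dC, dty, if_pos (by omega), a6]
    have h4 := fun i hi => ih (e + 1) (v * m + i) (by omega) (a2 i hi)
    constructor
    · refine Or.inr ⟨by rw [h3]; split_ifs <;> omega, fun _ => rfl, fun _ => by omega, ?_⟩
      rw [h2, h1, if_neg (show ¬ kind _ _ = 3 by rw [h3]; split_ifs <;> omega)]
      simp only [List.mem_map, List.mem_range]
      rintro _ ⟨a, ha, rfl⟩
      exact ok_mono (by split_ifs <;> omega) (h4 a ha).1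
    · rw [val, h3, h2, h1]
      rcases Nat.mod_two_eq_zero_or_one e with c | c
      · simp only [show (e + 1) % 2 = 1 by omega] at h4
        simp only [c, if_true, decide_true, Tm]
        simpa using forall₂_congr fun i hi => (h4 i hi).2
      · simp only [show (e + 1) % 2 = 0 by omega] at h4
        simp only [c, show ¬ (1 = 0) by omega, if_false, decide_false, Tm]
        simpa using exists_congr fun i => and_congr_right fun hi => (h4 i hi).2

theorem dC_wcs (hm : 1 ≤ m) (hY : ∀ v < m ^ d, (Y v).length ≤ P) (A : List Bool → Bool) (g : ℕ) :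
    (dC m d M P Y, g) ∈ WCS A (d + 1) (d + 2) ↔ ∃ V ∈ Finset.powersetCard g (Finset.range M),
      Tm m (fun v => A (Y v ++ rowOf M V)) d true 0 := by
  have h := fun V => dC_node (M := M) hm hY A V d 0 0 (by omega) (by simp)
  simp only [Nat.zero_mul, Nat.zero_add, Nat.zero_mod, decide_true] at h
  set B := (d + 1) * m ^ d + 2 * P
  constructor
  · rintro ⟨-, V, h1, h2, h3⟩
    simp only [dC_inp] at h2
    refine ⟨V.image (· - B), Finset.mem_powersetCard.2 ⟨fun u hu => ?_, ?_⟩, ?_⟩
    · obtain ⟨v, hv, rfl⟩ := Finset.mem_image.1 hu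
      have := h2 v hv
      exact Finset.mem_range.2 (by omega)
    · rw [Finset.card_image_of_injOn fun u hu v hv e => ?_, h1]
      have := h2 u hu
      have := h2 v hv
      omega
    · rw [show rowOf M (V.image (· - B)) = _ from List.map_congr_left fun i _ => ?_]
      · exact (h V).2.1 h3
      refine decide_eq_decide.2 ⟨fun hu => ?_, fun hu => Finset.mem_image.2 ⟨_, hu, by omega⟩⟩
      obtain ⟨v, hv, rfl⟩ := Finset.mem_image.1 hu
      have := h2 v hv
      rwa [Nat.add_sub_cancel' this.1]
  · rintro ⟨V, h1, h2⟩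
    obtain ⟨h3, h4⟩ := Finset.mem_powersetCard.1 h1
    refine ⟨(h ∅).1, V.image (B + ·), ?_, fun u hu => ?_, (h _).2.2 ?_⟩
    · rw [Finset.card_image_of_injective _ (add_right_injective B), h4]
    · obtain ⟨v, hv, rfl⟩ := Finset.mem_image.1 hu
      have := Finset.mem_range.1 (h3 hv)
      exact (dC_inp _).2 (by omega)
    · simpa [rowOf] using h2

end Pool.Agent.P.MP_d3fb3e_lc
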