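import Pool.Agent.P.MP_d3fb3e_lc.Defs

/-! Single steps of oracle programs, the adversary argument, and two fixed point lemmas. -/

namespace Pool.Agent.P.MP_d3fb3e_lc

open Function

/-- Configurations: the programs still to be run and the registers. -/
abbrev Cfg : Type := List (Prog ℕ) × (ℕ → List Bool)

/-- One step, when the pending oracle query is answered by `v`. -/
def stepV (v : Bool) : Cfg → Cfg
  | ([], s) => ([], s)
  | (.skip :: k, s) => (k, s)
  | (.push r b :: k, s) => (k, update s r (b :: s r))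
  | (.ask r :: k, s) => (k, update s r (v :: s r))
  | (.seq p q :: k, s) => (p :: q :: k, s)
  | (.case r pn pb :: k, s) => ((s r).head?.elim pn pb :: k, update s r (s r).tail)
  | (.loop r pb :: k, s) =>
      ((s r).head?.elim k fun b => pb b :: .loop r pb :: k, update s r (s r).tail)

/-- The pending oracle query. -/
def qry : Cfg → List Bool
  | (.ask r :: _, s) => s r
  | _ => []

/-- One step with oracle `A`. -/
def step (A : List Bool → Bool) (c : Cfg) : Cfg := stepV (A (qry c)) c

theorem Run.sim {A : List Bool → Bool} {p : Prog ℕ} {s t : ℕ → List Bool} {n : ℕ}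
    (h : Run A p s t n) : ∀ k, ∃ m ≤ n, (step A)^[m] (p :: k, s) = (k, t) := by
  induction h with
  | skip s => exact fun k => ⟨1, le_rfl, rfl⟩
  | push r b s => exact fun k => ⟨1, le_rfl, rfl⟩
  | ask r s => exact fun k => ⟨1, le_rfl, rfl⟩
  | @seq p q s t u m n _ _ ih1 ih2 =>
    intro k
    obtain ⟨m1, h1, e1⟩ := ih1 (q :: k)
    obtain ⟨m2, h2, e2⟩ := ih2 k
    refine ⟨m2 + m1 + 1, by omega, ?_⟩
    rw [iterate_succ_apply, iterate_add_apply, ← e2, ← e1]
    rfl
  | @caseN r pn pb s t n hs _ ih =>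
    intro k
    obtain ⟨m1, h1, e1⟩ := ih k
    refine ⟨m1 + 1, by omega, ?_⟩
    have : update s r [] = s := by rw [← hs]; exact update_eq_self r s
    rw [iterate_succ_apply, ← e1]
    simp [step, stepV, hs, this]
  | @caseC r pn pb s t n b l hs _ ih =>
    intro k
    obtain ⟨m1, h1, e1⟩ := ih k
    refine ⟨m1 + 1, by omega, ?_⟩
    rw [iterate_succ_apply, ← e1]
    simp [step, stepV, hs]
  | @loopN r pb s hs =>
    intro k
    have : update s r [] = s := by rw [← hs]; exact update_eq_self r s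
    exact ⟨1, le_rfl, by simp [step, stepV, hs, this]⟩
  | @loopC r pb s t u m n b l hs _ _ ih1 ih2 =>
    intro k
    obtain ⟨m1, h1, e1⟩ := ih1 (.loop r pb :: k)
    obtain ⟨m2, h2, e2⟩ := ih2 k
    refine ⟨m2 + m1 + 1, by omega, ?_⟩
    rw [iterate_succ_apply, iterate_add_apply, ← e2, ← e1]
    simp [step, stepV, hs]
  | mono _ hmn ih =>
    intro k
    obtain ⟨m1, h1, e1⟩ := ih k
    exact ⟨m1, h1.trans hmn, e1⟩

theorem Run.sim' {A : List Bool → Bool} {p : Prog ℕ} {s t : ℕ → List Bool} {n : ℕ}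
    (h : Run A p s t n) : (step A)^[n] ([p], s) = ([], t) := by
  obtain ⟨m, hm, e⟩ := h.sim []
  obtain ⟨d, rfl⟩ := Nat.exists_eq_add_of_le' hm
  rw [iterate_add_apply, e]
  exact iterate_fixed rfl d

theorem stepV_len (v : Bool) (c : Cfg) {B : ℕ} (h : ∀ r, (c.2 r).length ≤ B) (r : ℕ) :
    ((stepV v c).2 r).length ≤ B + 1 := by
  have key : ∀ r' (l : List Bool), l.length ≤ B + 1 → (update c.2 r' l r).length ≤ B + 1 := by
    intro r' l hl
    by_cases e : r = r'
    · subst e; simpa using hl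
    · rw [update_of_ne e]; exact (h r).trans (by omega)
  obtain ⟨_ | ⟨p, k⟩, s⟩ := c
  · exact (h r).trans (by omega)
  cases p with
  | skip => exact (h r).trans (by omega)
  | seq => exact (h r).trans (by omega)
  | push r' b => exact key _ _ (by simpa using h r')
  | ask r' => exact key _ _ (by simpa using h r')
  | case r' => exact key _ _ (by have := h r'; simp at this ⊢; omega)
  | loop r' => exact key _ _ (by have := h r'; simp at this ⊢; omega)

theorem qry_len (c : Cfg) {B : ℕ} (h : ∀ r, (c.2 r).length ≤ B) : (qry c).length ≤ B := by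
  obtain ⟨_ | ⟨p, k⟩, s⟩ := c
  · simp [qry]
  cases p with
  | ask r => exact h r
  | _ => simp [qry]

/-- The adversary argument: if every short query can be decided, then so can a whole run. -/
theorem adversary {Γ : Type} (sem : Γ → Set (List Bool → Bool)) (Ok : ℕ → Γ → Prop) (N : ℕ)
    (h : ∀ i γ (a : List Bool), a.length ≤ N → Ok i γ →
      ∃ γ' v, Ok (i + 1) γ' ∧ sem γ' ⊆ sem γ ∧ ∀ A ∈ sem γ', A a = v)
    (c : Cfg) (B : ℕ) (hc : ∀ r, (c.2 r).length ≤ B) (γ : Γ) (hγ : Ok 0 γ) (T : ℕ)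
    (hT : B + T ≤ N) : ∃ (γ' : Γ) (c' : Cfg), Ok T γ' ∧ (∀ r, (c'.2 r).length ≤ B + T) ∧
      ∀ A ∈ sem γ', (step A)^[T] c = c' := by
  induction T with
  | zero => exact ⟨γ, c, hγ, hc, fun _ _ => rfl⟩
  | succ T ih =>
    obtain ⟨γ', c', h1, h2, h3⟩ := ih (by omega)
    obtain ⟨γ'', v, h4, h5, h6⟩ := h T γ' (qry c') ((qry_len c' h2).trans (by omega)) h1
    refine ⟨γ'', stepV v c', h4, stepV_len v c' h2, fun A hA => ?_⟩
    rw [iterate_succ_apply', h3 A (h5 hA), step, h6 A hA]

/-- A numbering of programs. -/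
def Prog.num : Prog ℕ → ℕ
  | .skip => Nat.pair 0 0
  | .push r b => Nat.pair 1 (Nat.pair r b.toNat)
  | .ask r => Nat.pair 2 r
  | .seq p q => Nat.pair 3 (Nat.pair p.num q.num)
  | .case r pn pb => Nat.pair 4 (Nat.pair r (Nat.pair pn.num
      (Nat.pair (pb false).num (pb true).num)))
  | .loop r pb => Nat.pair 5 (Nat.pair r (Nat.pair (pb false).num (pb true).num))

theorem Prog.num_inj (p : Prog ℕ) : ∀ q : Prog ℕ, p.num = q.num → p = q := by
  induction p with
  | skip => intro q h; cases q <;> simp [Prog.num] at h ⊢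
  | push r b =>
    intro q h
    cases q <;> simp [Prog.num] at h ⊢
    rename_i r' b'
    refine ⟨h.1, ?_⟩
    have := h.2
    cases b <;> cases b' <;> simp_all
  | ask r => intro q h; cases q <;> simp [Prog.num] at h ⊢; exact h
  | seq p p' ih ih' =>
    intro q h
    cases q <;> simp [Prog.num] at h ⊢
    exact ⟨ih _ h.1, ih' _ h.2⟩
  | case r pn pb ih ih' =>
    intro q h
    cases q <;> simp [Prog.num] at h ⊢
    exact ⟨h.1, ih _ h.2.1, funext fun b => by
      cases b
      · exact ih' _ _ h.2.2.1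
      · exact ih' _ _ h.2.2.2⟩
  | loop r pb ih =>
    intro q h
    cases q <;> simp [Prog.num] at h ⊢
    exact ⟨h.1, funext fun b => by
      cases b
      · exact ih _ _ h.2.1
      · exact ih _ _ h.2.2⟩

instance : Countable (Prog ℕ) := ⟨⟨Prog.num, fun p q h => p.num_inj q h⟩⟩

variable {Z D : Type} (sz : Z → ℕ)

/-- Agreement below the size `n`. -/
def Agr (n : ℕ) (σ τ : Z → D) : Prop := ∀ z, sz z < n → σ z = τ z

/-- Definition by recursion on the size. -/
theorem fix_exists [Nonempty D] (F : (Z → D) → Z → D)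
    (hF : ∀ σ τ z, Agr sz (sz z) σ τ → F σ z = F τ z) : ∃ σ, ∀ z, σ z = F σ z := by
  let s : ℕ → Z → D := fun m => F^[m] fun _ => Classical.arbitrary D
  have h1 : ∀ m, Agr sz m (s m) (s (m + 1)) := by
    intro m
    induction m with
    | zero => exact fun z hz => absurd hz (Nat.not_lt_zero _)
    | succ m ih =>
      intro z hz
      simp only [s, iterate_succ_apply' F (m + 1), iterate_succ_apply' F m] at ih ⊢
      exact hF _ _ z fun y hy => ih y (by omega)
  have h2 : ∀ m d, Agr sz m (s m) (s (m + d)) := by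
    intro m d
    induction d with
    | zero => exact fun _ _ => rfl
    | succ d ih => exact fun z hz => (ih z hz).trans (h1 (m + d) z (by omega))
  refine ⟨fun z => s (sz z + 1) z, fun z => ?_⟩
  show s (sz z + 1) z = _
  rw [show s (sz z + 1) = F (s (sz z)) from iterate_succ_apply' F _ _]
  refine hF _ _ z fun y hy => ?_
  obtain ⟨d, hd⟩ := Nat.exists_eq_add_of_le (show sz y + 1 ≤ sz z from hy)
  rw [hd]
  exact (h2 (sz y + 1) d y (by omega)).symm

/-- The finite extension method. -/
theorem generic {I : Type} [Countable I] [Nonempty I] (V : (Z → D) → Z → Prop)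
    (hV : ∀ σ τ z, Agr sz (sz z + 1) σ τ → V σ z → V τ z) (R : I → (Z → D) → Prop) (σ₀ : Z → D)
    (h0 : ∀ z, V σ₀ z) (h : ∀ i σ n, (∀ z, V σ z) → ∃ τ n', (∀ z, V τ z) ∧ Agr sz n σ τ ∧
      ∀ τ', Agr sz n' τ τ' → R i τ') : ∃ σ, (∀ z, V σ z) ∧ ∀ i, R i σ := by
  obtain ⟨e, he⟩ := exists_surjective_nat I
  choose! τ ν h1 h2 h3 using h
  let s : ℕ → (Z → D) × ℕ := fun m => Nat.rec (σ₀, 0)
    (fun j p => (τ (e j) p.1 p.2, p.2 + ν (e j) p.1 p.2 + 1)) m
  have s1 : ∀ m, s (m + 1) = (τ (e m) (s m).1 (s m).2, (s m).2 + ν (e m) (s m).1 (s m).2 + 1) :=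
    fun m => rfl
  have a1 : ∀ m z, V (s m).1 z := by
    intro m
    induction m with
    | zero => exact h0
    | succ m ih => exact h1 _ _ _ ih
  have a2 : ∀ m d, (s m).2 + d ≤ (s (m + d)).2 := by
    intro m d
    induction d with
    | zero => exact le_rfl
    | succ d ih => rw [← add_assoc, ← add_assoc, s1]; simp only; omega
  have a3 : ∀ m d, Agr sz (s m).2 (s m).1 (s (m + d)).1 := by
    intro m d
    induction d with
    | zero => exact fun _ _ => rfl
    | succ d ih =>
      exact fun z hz => (ih z hz).trans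
        (h2 _ _ (s (m + d)).2 (a1 (m + d)) z (by have := a2 m d; omega))
  have a4 : ∀ m, Agr sz (s m).2 (s m).1 fun z => (s (sz z + 1)).1 z := fun m z hz => by
    have := a2 0 (sz z + 1)
    rw [zero_add] at this
    refine (a3 m (sz z + 1) z hz).trans ?_
    rw [add_comm m]
    exact (a3 (sz z + 1) m z (by omega)).symm
  refine ⟨fun z => (s (sz z + 1)).1 z, fun z => hV _ _ z (fun y hy => a4 (sz z + 1) y ?_)
    (a1 (sz z + 1) z), fun i => ?_⟩
  · have := a2 0 (sz z + 1)
    rw [zero_add] at this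
    omega
  · obtain ⟨m, rfl⟩ := he i
    exact h3 _ _ (s m).2 (a1 m) _ fun z hz => a4 (m + 1) z (by rw [s1]; simp only; omega)

end Pool.Agent.P.MP_d3fb3e_lc
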