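import Pool.Agent.P.MP_d3fb3e_lc.Dec
import Pool.Agent.P.MP_d3fb3e_lc.Step

/-! Cells with hidden pointers, the oracle they define, and the reduction that decodes a cell. -/

namespace Pool.Agent.P.MP_d3fb3e_lc

open Classical Function
open Pool.Agent.Lib.helper21 (Bd Rl RealT Enc pairW listW PT sz length_pairW sz_pair sz_prod sz_nat
  length_le_sz sz_list_le sz_bool)
open Pool.Agent.Lib.helper26

theorem pairW_inj {x y x' y' : List Bool} (h : pairW x y = pairW x' y') : x = x' ∧ y = y' := by
  induction x generalizing x' with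
  | nil => cases x' <;> simp_all [pairW]
  | cons b x ih =>
    cases x' with
    | nil => simp [pairW] at h
    | cons b' x' =>
      simp only [pairW, List.flatMap_cons, List.cons_append, List.nil_append, List.cons.injEq,
        true_and] at h
      obtain ⟨h1, h2⟩ := ih h.2
      exact ⟨by rw [h.1, h1], h2⟩

theorem enc_nat : Injective (Enc.enc : ℕ → List Bool) := fun a b h => by
  simpa [Enc.enc] using congrArg List.length h

theorem enc_bits : Injective (Enc.enc : List Bool → List Bool) := by
  intro a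
  induction a with
  | nil => intro b h; cases b <;> simp_all [Enc.enc, listW]
  | cons c a ih =>
    intro b h
    cases b with
    | nil => simp [Enc.enc, listW] at h
    | cons c' b =>
      obtain ⟨h1, h2⟩ := pairW_inj (List.cons.inj h).2
      rw [(List.cons.inj h1).1, ih h2]

theorem enc_prod {α β : Type} [Enc α] [Enc β] (h1 : Injective (Enc.enc : α → List Bool))
    (h2 : Injective (Enc.enc : β → List Bool)) : Injective (Enc.enc : α × β → List Bool) :=
  fun _ _ h => Prod.ext (h1 (pairW_inj h).1) (h2 (pairW_inj h).2)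

/-- A cell `(s, h, k, x)`. -/
abbrev Cell : Type := ℕ × ℕ × ℕ × List Bool

theorem enc_cell : Injective (Enc.enc : Cell → List Bool) :=
  enc_prod enc_nat (enc_prod enc_nat (enc_prod enc_nat enc_bits))

theorem cell_len (z : Cell) : z.2.2.2.length < sz z := by
  obtain ⟨s, h, k, x⟩ := z
  have := length_le_sz x
  simp only [sz_pair]
  omega

theorem cell_fin (N : ℕ) : {z : Cell | sz z ≤ N}.Finite :=
  (List.finite_length_le Bool N).preimage enc_cell.injOn

/-- The parameter of a cell. -/
def par (z : Cell) : ℕ := z.2.2.1 + z.2.1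

/-- The weight of the rows of a cell. -/
def gw (z : Cell) : ℕ := (par z + 1) ^ 2

/-- The addresses of the pointer bits. -/
def pA (z : Cell) (w : List Bool) : List Bool := false :: Enc.enc (z, w)

/-- The addresses of the region of a cell. -/
def rA (z : Cell) (p : List Bool) (v : ℕ) (X : List Bool) : List Bool :=
  true :: pairW (Enc.enc (z, p, v)) X

theorem rA_inj {z z' : Cell} {p p' X X' : List Bool} {v v' : ℕ}
    (h : rA z p v X = rA z' p' v' X') : z = z' ∧ p = p' ∧ v = v' ∧ X = X' := by
  obtain ⟨h1, h2⟩ := pairW_inj (List.cons.inj h).2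
  obtain ⟨⟩ := enc_prod enc_cell (enc_prod enc_bits enc_nat) h1
  exact ⟨rfl, rfl, rfl, h2⟩

theorem rA_len (z : Cell) (p : List Bool) (v : ℕ) (X : List Bool) :
    (rA z p v X).length = 2 * (2 * sz z + (2 * sz p + v + 1) + 1) + X.length + 2 := by
  have := sz_pair z (p, v)
  rw [sz_pair p v, sz_nat] at this
  rw [rA, List.length_cons, length_pairW, ← this]
  rfl

theorem pA_len (z : Cell) (w : List Bool) : sz z < (pA z w).length := by
  have := sz_pair z w
  rw [pA, List.length_cons]
  unfold sz at this ⊢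
  omega

/-- The data of a cell: pointer bits and the contents of its rows. -/
abbrev Dat : Type := (ℕ → Bool) × (List Bool → ℕ → Bool)

/-- The pointer of a cell. -/
def ptr (π : Cell → ℕ → Bool) (z : Cell) : List Bool := (List.range (sz z)).map (π z)

/-- The address `a` lies in the row `X` of the region of the cell `z`. -/
def Hit (π : Cell → ℕ → Bool) (a : List Bool) (z : Cell) (X : List Bool) : Prop :=
  ∃ v, a = rA z (ptr π z) v X

theorem Hit.lt {π : Cell → ℕ → Bool} {a : List Bool} {z : Cell} {X : List Bool}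
    (h : Hit π a z X) : sz z < a.length := by
  obtain ⟨v, rfl⟩ := h
  rw [rA_len]
  omega

theorem Hit.uniq {π : Cell → ℕ → Bool} {a : List Bool} {z z' : Cell} {X X' : List Bool}
    (h : Hit π a z X) (h' : Hit π a z' X') : z = z' ∧ X = X' := by
  obtain ⟨v, rfl⟩ := h
  obtain ⟨v', h'⟩ := h'
  exact ⟨(rA_inj h').1, (rA_inj h').2.2.2⟩

/-- The oracle. -/
noncomputable def orc (σ : Cell → Dat) (a : List Bool) : Bool :=
  decide ((∃ z w, a = pA z w ∧ (σ z).1 w.length = true) ∨
    ∃ z v X, a = rA z (ptr (fun z => (σ z).1) z) v X ∧ (σ z).2 X v = true)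

theorem orc_pA (σ : Cell → Dat) (z : Cell) (w : List Bool) :
    orc σ (pA z w) = (σ z).1 w.length := by
  rw [Bool.eq_iff_iff, orc, decide_eq_true_eq]
  refine ⟨?_, fun h => Or.inl ⟨z, w, rfl, h⟩⟩
  rintro (⟨z', w', h1, h2⟩ | ⟨z', v, X, h1, -⟩)
  · obtain ⟨⟩ := enc_prod enc_cell enc_bits (List.cons.inj h1).2
    exact h2
  · simp [pA, rA] at h1

theorem orc_rA (σ : Cell → Dat) (z : Cell) (v : ℕ) (X : List Bool) :
    orc σ (rA z (ptr (fun z => (σ z).1) z) v X) = (σ z).2 X v := by
  rw [Bool.eq_iff_iff, orc, decide_eq_true_eq]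
  refine ⟨?_, fun h => Or.inr ⟨z, v, X, rfl, h⟩⟩
  rintro (⟨z', w', h1, h2⟩ | ⟨z', v, X, h1, h2⟩)
  · simp [pA, rA] at h1
  · obtain ⟨rfl, -, rfl, rfl⟩ := rA_inj h1
    exact h2

theorem orc_loc {σ τ : Cell → Dat} {a : List Bool} (h : Agr sz a.length σ τ) :
    orc σ a = orc τ a := by
  have key : ∀ {σ τ : Cell → Dat}, Agr sz a.length σ τ → orc σ a = true → orc τ a = true := by
    intro σ τ h
    simp only [orc, decide_eq_true_eq]
    rintro (⟨z, w, rfl, h2⟩ | ⟨z, v, X, h1, h2⟩)
    · exact Or.inl ⟨z, w, rfl, h z (pA_len z w) ▸ h2⟩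
    · have := h z (Hit.lt ⟨v, h1⟩)
      exact Or.inr ⟨z, v, X, by rw [h1, ptr, ptr, this], this ▸ h2⟩
  exact Bool.eq_iff_iff.2 ⟨key h, key fun z hz => (h z hz).symm⟩

theorem orc_congr {π : Cell → ℕ → Bool} {κ κ' : Cell → List Bool → ℕ → Bool} {a : List Bool}
    (h : ∀ z X, Hit π a z X → κ z X = κ' z X) :
    orc (fun z => (π z, κ z)) a = orc (fun z => (π z, κ' z)) a := by
  refine decide_eq_decide.2 (or_congr_right (exists₃_congr fun z v X =>
    and_congr_right fun h1 => ?_))
  simp only [h z X ⟨v, h1⟩]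

/-- The rows of a cell. -/
def rows (z : Cell) : Finset (List Bool) :=
  (Finset.powersetCard (gw z) (Finset.range (gw z * sz z))).image (rowOf (gw z * sz z))

/-- The bit stored in the contents `c` of the cell `z` by trees of depth `d`. -/
def En (d : ℕ) (z : Cell) (c : List Bool → ℕ → Bool) : Prop :=
  ∃ X ∈ rows z, Tm (sz z) (c X) d true 0

theorem pow_le_choose (g m : ℕ) : m ^ g ≤ (g * m).choose g := by
  induction g with
  | zero => simp
  | succ g ih =>
    rcases m.eq_zero_or_pos with rfl | hm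
    · simp
    have h1 := Nat.add_one_mul_choose_eq ((g + 1) * m - 1) g
    have h2 : (g + 1) * m - 1 + 1 = (g + 1) * m := by
      have : 0 < (g + 1) * m := by positivity
      omega
    have h3 : (g * m).choose g ≤ ((g + 1) * m - 1).choose g :=
      Nat.choose_le_choose _ (by rw [Nat.succ_mul]; omega)
    rw [h2] at h1
    refine Nat.le_of_mul_le_mul_right ?_ (Nat.succ_pos g)
    rw [← h1, pow_succ]
    nlinarith [Nat.mul_le_mul_left ((g + 1) * m) (ih.trans h3)]

theorem card_rows (z : Cell) : sz z ^ gw z ≤ (rows z).card := by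
  rw [rows, Finset.card_image_of_injOn, Finset.card_powersetCard, Finset.card_range]
  · exact pow_le_choose _ _
  intro V hV V' hV' h
  have h1 := (Finset.mem_powersetCard.1 hV).1
  have h2 := (Finset.mem_powersetCard.1 hV').1
  have h3 : ∀ i ∈ List.range (gw z * sz z), decide (i ∈ V) = decide (i ∈ V') :=
    List.map_inj_left.1 h
  ext i
  exact ⟨fun hi => (decide_eq_decide.1 (h3 i (by simpa using h1 hi))).1 hi,
    fun hi => (decide_eq_decide.1 (h3 i (by simpa using h2 hi))).2 hi⟩

theorem En_const (d : ℕ) (z : Cell) (b : Bool) : En d z (fun _ _ => b) ↔ b = true := by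
  have h1 : 1 ≤ sz z := by have := cell_len z; omega
  obtain ⟨X, hX⟩ := Finset.card_pos.1 ((Nat.one_le_pow _ _ h1).trans (card_rows z))
  simp only [En, Tm_const h1]
  exact ⟨fun ⟨_, _, h⟩ => h, fun h => ⟨X, hX, h⟩⟩

/-- The circuit that decodes the cell `z` with pointer `p`. -/
def dcd (d : ℕ) (z : Cell) (p : List Bool) : List Bool :=
  dC (sz z) d (gw z * sz z) (rA z p (sz z ^ d) []).length fun v => rA z p v []

theorem dcd_wcs (σ : Cell → Dat) (d : ℕ) (z : Cell) :
    (dcd d z (ptr (fun z => (σ z).1) z), gw z) ∈ WCS (orc σ) (d + 1) (d + 2) ↔ En d z (σ z).2 := by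
  have e : ∀ p v X, rA z p v [] ++ X = rA z p v X := fun p v X => by simp [rA, pairW]
  rw [dcd, dC_wcs (by have := cell_len z; omega) fun v hv => by simp only [rA_len]; omega]
  simp only [e, orc_rA, En, rows, Finset.exists_mem_image]

theorem PT_enc {α β : Type} [Enc α] [Enc β] {f : α → β} (hf : PT f) :
    PT fun a => Enc.enc (f a) := PT_ofRaw.comp (g := fun a => Raw.mk (Enc.enc (f a))) hf

theorem PT_dcd (d : ℕ) : PT fun q : Cell × List Bool => dcd d q.1 q.2 := by
  have h1 : PT fun p : (Cell × List Bool) × ℕ => rA p.1.1 p.1.2 p.2 [] := by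
    have := PT_enc (f := fun p : (Cell × List Bool) × ℕ => (p.1.1, p.1.2, p.2)) (by fun_prop)
    unfold rA pairW
    exact PT.cons (by fun_prop) (PT.append (PT.flatMap this (by fun_prop)) (by fun_prop))
  refine PT_dC d (by fun_prop) (by unfold gw par; fun_prop) (PT.length
    (h1.comp (g := fun q : Cell × List Bool => (q, sz q.1 ^ d)) (by fun_prop))) h1

theorem RA_dcd (σ : Cell → Dat) (s h d : ℕ) :
    RA (orc σ) (fun p : List Bool × ℕ => (code p.1 p.2).length) (fun p => code p.1 p.2) fun p =>
      code (dcd d (s, h, p.2, p.1) (ptr (fun z => (σ z).1) (s, h, p.2, p.1)))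
        (gw (s, h, p.2, p.1)) := by
  let e : Cell × List Bool → List Bool := fun q => pA q.1 q.2
  let go : Cell × List Bool → Bool := fun q => decide (q.2.length < sz q.1)
  let stp : Cell × List Bool → Cell × List Bool := fun q => (q.1, q.2 ++ [orc σ (e q)])
  let c : List Bool × ℕ → Cell := fun p => (s, h, p.2, p.1)
  have hgo : PT go := by fun_prop
  have hit : ∀ z j, stp^[j] (z, []) = (z, (List.range j).map (σ z).1) := by
    intro z j
    induction j with
    | zero => rfl
    | succ j ih => rw [iterate_succ_apply', ih]; simp [stp, e, orc_pA, List.range_succ]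
  have hc : PT fun p : ℕ × Raw => (s, h, p.1, p.2.w) :=
    PT.pair (by fun_prop) (PT.pair (by fun_prop) (PT.pair (by fun_prop)
      (PT_ofRaw.comp (by fun_prop))))
  have hsz : Bd (fun p : List Bool × ℕ => (code p.1 p.2).length) fun p => sz (c p) := by
    simp only [code_eq]
    exact hc.bd.reindex fun p : List Bool × ℕ => (p.2, Raw.mk p.1)
  have s1 : Rl (fun q : (Cell × List Bool) × Bool => q.2 :: e q.1) fun q => Enc.enc (q.2, q.1) := by
    have a1 : Rl (fun q : (Cell × List Bool) × Bool => q.2 :: e q.1) fun q => [q.2] :=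
      (Rl.head (Rl.id _) fun o => o.getD false).congr fun q => rfl
    exact a1.fork (Rl.id _).tail.tail
  have s2 : PT fun q : Bool × Cell × List Bool => (q.2.1, q.2.2 ++ [q.1]) := by fun_prop
  have s3 : Rl (fun q : (Cell × List Bool) × Bool => q.2 :: e q.1) fun q =>
      go (q.1.1, q.1.2 ++ [q.2]) :: e (q.1.1, q.1.2 ++ [q.2]) :=
    s1.comp (Rl.reindex (Rl.consBit (hgo.comp s2) (Rl.cons s2 false))
      fun q : (Cell × List Bool) × Bool => (q.2, q.1))
  have s4 : RA (orc σ) (fun q => (e q).length) e fun q => go (stp q) :: e (stp q) :=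
    (RA.ask _ e).comp (RA.of (RealT.size (Rl.reindex s3 fun q => (q, orc σ (e q)))
      (((Bd.self _).add (Bd.const _ 1)).mono fun q => by simp)))
  have s5 := RA.whileLoop e go stp s4 (fun p : List Bool × ℕ => (code p.1 p.2).length)
    (fun p => (c p, [])) (fun p => sz (c p)) (fun p j hj => by simp [hit, go, hj])
    (fun p => by simp [hit, go]) hsz (fun p => 6 * sz (c p) + 3)
    (((Bd.const _ _).mul hsz).add (Bd.const _ _)) fun p j hj => by
      have h1 := sz_list_le ((List.range j).map (σ (c p)).1) 1 fun _ _ => by simp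
      have h2 := sz_pair (c p) ((List.range j).map (σ (c p)).1)
      simp only [hit, e, pA, List.length_cons, List.length_map, List.length_range] at h1 ⊢
      unfold sz at h1 h2 hj ⊢
      omega
  have s6 : PT fun p : ℕ × Raw => ((s, h, p.1, p.2.w), ([] : List Bool)) := hc.pair (by fun_prop)
  have s7 := Rl.reindex (Rl.consBit (hgo.comp s6) (Rl.cons s6 false))
    fun p : List Bool × ℕ => (p.2, Raw.mk p.1)
  have s8 : PT fun q : Cell × List Bool => (gw q.1, Raw.mk (dcd d q.1 q.2)) :=
    PT.pair (by unfold gw par; fun_prop) (PT_toRaw.comp (PT_dcd d))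
  have s9 := Rl.reindex (Rl.comp (Rl.id e).tail s8) fun p => stp^[sz (c p)] (c p, [])
  have s10 : Bd (fun p : List Bool × ℕ => (code p.1 p.2).length)
      fun p => (e (stp^[sz (c p)] (c p, []))).length :=
    (((Bd.const _ 6).mul hsz).add (Bd.const _ 3)).mono fun p => by
      have h1 := sz_list_le ((List.range (sz (c p))).map (σ (c p)).1) 1 fun _ _ => by simp
      have h2 := sz_pair (c p) ((List.range (sz (c p))).map (σ (c p)).1)
      simp only [hit, e, pA, List.length_cons, List.length_map, List.length_range] at h1 ⊢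
      unfold sz at h1 h2 ⊢
      omega
  have s11 := s5.comp (RA.of (RealT.size s9 s10))
  simp only [code_eq, hit] at s11 ⊢
  exact (RA.of s7).comp s11

theorem Red.dcd {σ : Cell → Dat} {L L₁ : Set (List Bool × ℕ)} (hL : Red (orc σ) L L₁) (s h d : ℕ)
    (h1 : ∀ x k, (x, k) ∈ L₁ ↔ En d (s, h, k, x) (σ (s, h, k, x)).2) : L ∈ W (orc σ) (d + 1) :=
  ⟨d + 2, hL.trans (fun p => (MP_d3fb3e_lc.dcd d (s, h, p.2, p.1)
    (ptr (fun z => (σ z).1) (s, h, p.2, p.1)), gw (s, h, p.2, p.1))) (h + 1) (RA_dcd σ s h d)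
    (fun _ => le_rfl) fun p => (h1 p.1 p.2).trans (dcd_wcs σ d _).symm⟩

end Pool.Agent.P.MP_d3fb3e_lc
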