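import Pool.Agent.P.MP_d3fb3e_lc.Ptr
import Pool.Agent.P.MP_d3fb3e_lc.Cell

/-! Projection of large trees onto the standard tree. -/

namespace Pool.Agent.P.MP_d3fb3e_lc

open Finset Classical
open Pool.Agent.P.MP_d1c5a4_lc (Tr upd Ix)

theorem surj_lt (I : Type) [Fintype I] [Nonempty I] {m : ℕ} (h : Fintype.card I ≤ m) :
    ∃ σ : ℕ → I, ∀ c, ∃ i < m, σ i = c :=
  ⟨fun i => if h : i < Fintype.card I then (Fintype.equivFin I).symm ⟨i, h⟩ else
    Classical.arbitrary I, fun c => ⟨Fintype.equivFin I c, (Fin.is_lt _).trans_le h, by simp⟩⟩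

theorem Tm_pad {m : ℕ} (hm : 1 ≤ m) (e a : ℕ) (g : ℕ → Bool) (c : Bool) (w : ℕ) :
    Tm m (fun v => g (v / m ^ e)) (e + a) c w ↔ Tm m g a c w := by
  induction a generalizing c w with
  | succ a ih => cases c <;> simp only [Tm, Nat.add_eq, ih]
  | zero =>
    induction e generalizing g c w with
    | zero => simp [Tm]
    | succ e ih =>
      have h : ∀ c, ∀ i < m, Tm m (fun v => g (v / m ^ (e + 1))) e c (w * m + i) ↔ g w = true :=
        fun c i hi => by
          have := ih (fun u => g (u / m)) c (w * m + i)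
          simp only [Nat.div_div_eq_div_mul, ← pow_succ, Nat.add_zero, Tm] at this
          rw [this, Nat.add_comm, Nat.add_mul_div_right _ _ hm, Nat.div_eq_of_lt hi, Nat.zero_add]
      cases c
      · exact ⟨fun ⟨i, hi, a⟩ => (h _ i hi).1 a, fun a => ⟨0, hm, (h _ 0 hm).2 a⟩⟩
      · exact ⟨fun a => (h _ 0 hm).1 (a 0 hm), fun a i hi => (h _ i hi).2 a⟩

theorem proj_exists {j L m d : ℕ} (hL : 1 ≤ L) (hm : L ^ 4 ≤ m) (hd : j + 1 ≤ d)
    (f₀ : Fin j → Ix L) : ∃ (c : Bool) (π : ℕ → Vr j L), ∀ y : Vr j L → Bool,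
      Tm m (fun v => xor c (y (π v))) d true 0 ↔ Sp f₀ y := by
  have hm1 : 1 ≤ m := (Nat.one_le_pow _ _ hL).trans hm
  have : NeZero L := ⟨by omega⟩
  obtain ⟨σ, hσ⟩ := surj_lt (Ix L) (m := m) (by simpa [← pow_succ'] using hm)
  obtain ⟨τ, hτ⟩ := surj_lt (Fin L) (m := m) (by
    simpa using (Nat.le_self_pow (by omega) L).trans hm)
  obtain ⟨e, rfl⟩ : ∃ e, d = e + (j + 1) := ⟨d - (j + 1), by omega⟩
  let F : ℕ → ℕ → Fin j → Ix L := fun a w c =>
    if c.val < a then f₀ c else σ (w / m ^ (c.val - a) % m)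
  have e1 : ∀ w, ∀ i < m, (w * m + i) / m = w := fun w i hi => by
    rw [Nat.add_comm, Nat.add_mul_div_right _ _ hm1, Nat.div_eq_of_lt hi, Nat.zero_add]
  have e2 : ∀ a w, ∀ i < m, F a (w * m + i) = upd (F (a + 1) w) a (σ i) := fun a w i hi => by
    funext c
    simp only [F, upd]
    rcases lt_trichotomy c.val a with h | h | h
    · rw [if_pos h, if_neg h.ne, if_pos (by omega)]
    · rw [if_neg (by omega), if_pos h, h, Nat.sub_self, pow_zero, Nat.div_one,
        Nat.mul_add_mod_of_lt hi]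
    · rw [if_neg (by omega), if_neg h.ne', if_neg (by omega),
        show c.val - a = c.val - (a + 1) + 1 by omega, pow_succ', ← Nat.div_div_eq_div_mul, e1 w i hi]
  refine ⟨decide (j % 2 = 1), fun v => (F 0 (v / m ^ e / m), τ (v / m ^ e % m)), fun y => ?_⟩
  refine (Tm_pad hm1 e (j + 1) (fun u => xor (decide (j % 2 = 1)) (y (F 0 (u / m), τ (u % m))))
    true 0).trans ?_
  have key : ∀ a (c : Bool) w, (c = true ↔ (a + j) % 2 = 0) →
      (Tm m (fun u => xor (decide (j % 2 = 1)) (y (F 0 (u / m), τ (u % m)))) (a + 1) c w ↔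
        (Tr (fun f => ∀ b, y (f, b) = true) a (F a w) ↔ c = true)) := by
    intro a
    induction a with
    | zero =>
      intro c w hc
      cases c
      · have : j % 2 = 1 := by simp at hc; omega
        simp only [Tm, Tr, this, decide_true, Bool.true_xor, Bool.not_eq_eq_eq_not, Bool.not_true,
          Bool.false_eq_true, iff_false, not_forall, Bool.not_eq_true]
        refine ⟨fun ⟨i, hi, h⟩ => ⟨τ i, ?_⟩, fun ⟨b, h⟩ => ?_⟩
        · rwa [e1 w i hi, Nat.mul_add_mod_of_lt hi] at h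
        · obtain ⟨i, hi, rfl⟩ := hτ b
          exact ⟨i, hi, by rwa [e1 w i hi, Nat.mul_add_mod_of_lt hi]⟩
      · have : ¬ j % 2 = 1 := by simp at hc; omega
        simp only [Tm, Tr, this, decide_false, Bool.false_xor, iff_true]
        refine ⟨fun h b => ?_, fun h i hi => ?_⟩
        · obtain ⟨i, hi, rfl⟩ := hτ b
          have := h i hi
          rwa [e1 w i hi, Nat.mul_add_mod_of_lt hi] at this
        · rw [e1 w i hi, Nat.mul_add_mod_of_lt hi]
          exact h _
    | succ a ih =>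
      intro c w hc
      cases c
      · have h1 := fun w => ih true w (by simp at hc ⊢; omega)
        rw [Tm]
        simp only [h1, Tr, Bool.false_eq_true, iff_false, iff_true, not_forall, not_not]
        refine ⟨fun ⟨i, hi, h⟩ => ⟨σ i, e2 a w i hi ▸ h⟩, fun ⟨b, h⟩ => ?_⟩
        obtain ⟨i, hi, rfl⟩ := hσ b
        exact ⟨i, hi, e2 a w i hi ▸ h⟩
      · have h1 := fun w => ih false w (by simp at hc ⊢; omega)
        rw [Tm]
        simp only [h1, Tr, Bool.false_eq_true, iff_false, iff_true]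
        refine ⟨fun h b => ?_, fun h i hi => e2 a w i hi ▸ h _⟩
        obtain ⟨i, hi, rfl⟩ := hσ b
        exact e2 a w i hi ▸ h i hi
  rw [key j true 0 (by simp; omega), show F j 0 = f₀ from funext fun c => if_pos c.2]
  simp [Sp]

end Pool.Agent.P.MP_d3fb3e_lc
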