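import Pool.Agent.P.MP_d3fb3e_lc.Greedy
import Pool.Agent.P.MP_d3fb3e_lc.Proj

/-! The last part of a stage: rows in which the undecided cells can still store any bit. -/

namespace Pool.Agent.P.MP_d3fb3e_lc

open Finset Classical
open Pool.Agent.Lib.helper21 (sz)
open Pool.Agent.P.MP_d1c5a4_lc (Fn Jun NN Ix)

/-- The conclusion of the depth hierarchy theorem for many rows. -/
def Multi (j W C L : ℕ) : Prop :=
  ∀ (f₀ : Fin j → Ix L) (R : Type) [Fintype R] [DecidableEq R], Fintype.card R ≤ L ^ C →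
    ∀ G : Fn (R × Vr j L), NN W (L ^ C) (j + 1) G →
    (∀ x, (∀ i, ¬ Sp f₀ fun v => x (i, v)) → ¬ G x) → ∃ a : R → Bool → Vr j L → Bool,
      (∀ i b, Sp f₀ (a i b) ↔ b = true) ∧ ∀ β : R → Bool, ¬ G fun p => a p.1 (β p.1) p.2

theorem Ctx.box {c : Ctx} {j C L : ℕ} (hM : 2 ≤ c.M) (hP : c.HP) (ht : c.t = j + 1) (hL : 1 ≤ L)
    (hn : L ^ 4 ≤ c.n) (hmul : Multi j (2 ^ c.K') C L) (hC : c.M ^ (c.K' + 2 ^ c.K' + 5) ≤ L ^ C)
    {γ : Sta} (hγ : c.AF γ.ω) (Q : Finset Cell) (hQ : Q.card ≤ c.M ^ 3)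
    (hQ' : ∀ q ∈ Q, c.small q ∧ ∀ ω, γ.Ag ω → c.AF ω → ¬ src (c.O γ.b ω) q)
    (r1 : ∀ z, c.n ≤ sz z → c.K < par z → γ.F.card < (rows z).card)
    (r2 : ∀ z, c.n ≤ sz z → c.K' < par z → γ.F.card + c.M ^ (c.K' + 4) < (rows z).card) :
    ∃ Φ : Cell → Bool → Ct, (∀ z b, c.n ≤ sz z → c.U z → (En (dp c.S z) z (Φ z b) ↔ b = true)) ∧
      ∀ β : Cell → Bool, γ.Ag (fun z => Φ z (β z)) ∧
        ∀ q ∈ Q, ¬ src (c.O γ.b fun z => Φ z (β z)) q := by
  have h1 : ∀ z, c.n ≤ sz z → c.U z → ∃ X ∈ rows z, (z, X) ∉ γ.F ∧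
      (c.K' < par z → ∀ q ∈ Q, ∀ a ∈ rds q, ¬ Hit c.π a z X) := fun z hz hU => by
    by_cases h : c.K' < par z
    · have a1 : (Q.biUnion rds).card ≤ c.M ^ (c.K' + 4) := by
        refine (card_biUnion_le_card_mul _ _ (c.M ^ (c.K' + 1)) fun q hq =>
          (card_reads _ _ _ hM (hQ' q hq).1.2.2).trans (Nat.pow_le_pow_right (by omega)
            (Nat.succ_le_succ (hQ' q hq).1.2.1))).trans ((Nat.mul_le_mul_right _ hQ).trans_eq ?_)
        ring
      obtain ⟨X, a2, a3⟩ := exists_mem_notMem_of_card_lt_card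
        (s := (γ.F ∪ (Q.biUnion rds).image (hf c.π)).image Prod.snd) (t := rows z)
        ((card_image_le.trans ((card_union_le _ _).trans
          (Nat.add_le_add_left (card_image_le.trans a1) _))).trans_lt (r2 z hz h))
      exact ⟨X, a2, fun h => a3 (mem_image_of_mem Prod.snd (mem_union_left _ h)),
        fun _ q hq a ha h => a3 (mem_image_of_mem Prod.snd (a := (z, X)) (mem_union_right _
          (mem_image.2 ⟨a, mem_biUnion.2 ⟨q, hq, ha⟩, hf_eq h⟩)))⟩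
    · obtain ⟨X, a2, a3⟩ := exists_mem_notMem_of_card_lt_card
        (s := γ.F.image Prod.snd) (t := rows z)
        (card_image_le.trans_lt (r1 z hz (hU.2.resolve_left h).2))
      exact ⟨X, a2, fun h => a3 (mem_image_of_mem Prod.snd h), fun h' => absurd h' h⟩
  choose! ρ ρ1 ρ2 ρ3 using h1
  choose! Y Y1 _ Y3 using hP
  set R := (Q.biUnion Y).filter fun z => c.n ≤ sz z ∧ c.U z ∧ par z ≤ c.K' with hR
  have hR' : ∀ z ∈ R, c.n ≤ sz z ∧ c.U z ∧ par z ≤ c.K' := fun z hz => (mem_filter.1 hz).2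
  have : NeZero L := ⟨by omega⟩
  let f₀ : Fin j → Ix L := fun _ => (0, 0)
  have h2 : ∀ z ∈ R, ∃ (e : Bool) (π : ℕ → Vr j L), ∀ y : Vr j L → Bool,
      Tm (sz z) (fun v => xor e (y (π v))) (dp c.S z) true 0 ↔ Sp f₀ y := fun z hz =>
    proj_exists hL (hn.trans (hR' z hz).1)
      (ht ▸ ((hR' z hz).2.1.2.resolve_left (not_lt.2 (hR' z hz).2.2)).1) f₀
  have : Nonempty (Vr j L) := ⟨(f₀, 0)⟩
  choose! e π hπ using h2
  let ωy : (R × Vr j L → Bool) → Cell → Ct := fun y z => if h : z ∈ R then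
    Function.update (γ.ω z) (ρ z) fun v => xor (e z) (y (⟨z, h⟩, π z v)) else γ.ω z
  have w1 : ∀ y z X, ¬ (z ∈ R ∧ X = ρ z) → ωy y z X = γ.ω z X := fun y z X h => by
    simp only [ωy]
    split_ifs with h1
    · exact Function.update_of_ne (fun h2 => h ⟨h1, h2⟩) _ _
    · rfl
  have w2 : ∀ y z (h : z ∈ R), ωy y z (ρ z) = fun v => xor (e z) (y (⟨z, h⟩, π z v)) :=
    fun y z h => by simp only [ωy, dif_pos h, Function.update_self]
  have hO : ∀ a, Jun 1 fun y => c.O γ.b (ωy y) a = true := fun a => by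
    by_cases h : ∃ z ∈ R, Hit c.π a z (ρ z)
    · obtain ⟨z, hz, v, rfl⟩ := h
      have a1 : ∀ y, c.O γ.b (ωy y) (rA z (ptr c.π z) v (ρ z)) = xor (e z) (y (⟨z, hz⟩, π z v)) :=
        fun y => by
          refine (orc_rA (fun z => (c.π z, c.wld γ.b (ωy y) z)) z v (ρ z)).trans ?_
          simp only [Ctx.wld, if_neg (not_lt.2 (hR' z hz).1), if_pos (hR' z hz).2.1, w2 y z hz]
      exact ⟨{(⟨z, hz⟩, π z v)}, by simp, fun y y' h => by
        simp only [a1, h _ (mem_singleton_self _), imp_self]⟩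
    · refine (Jun.const 1 (c.O γ.b γ.ω a = true)).congr fun y => ?_
      rw [Ctx.O_congr (b' := γ.b) (ω' := γ.ω) fun z X h1 _ =>
        ⟨fun _ => w1 y z X fun h2 => h ⟨z, h2.1, h2.2 ▸ h1⟩, fun _ => rfl⟩]
  have hs : ∀ a : List Bool, a.length ≤ 2 → ∀ y y', c.O γ.b (ωy y) a = c.O γ.b (ωy y') a :=
    fun a ha y y' => Ctx.O_congr fun z X ⟨v, h⟩ _ => by
      rw [h, rA_len] at ha
      omega
  have hag : ∀ y, γ.Ag (ωy y) := fun y p hp => w1 y _ _ fun h =>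
    ρ2 _ (hR' _ h.1).1 (hR' _ h.1).2.1 (h.2 ▸ hp)
  have hM3 : 1 ≤ c.M ^ 3 := Nat.one_le_pow _ _ (by omega)
  obtain ⟨a, a1, a2⟩ := hmul f₀ R (by
      rw [Fintype.card_coe]
      refine (card_filter_le _ _).trans ((card_biUnion_le_card_mul _ _ (c.M + 1) fun q hq =>
        Y1 q (hQ' q hq).1.2.1 (hQ' q hq).1.2.2).trans (le_trans ?_ hC))
      calc _ ≤ c.M ^ 3 * c.M ^ 2 := Nat.mul_le_mul hQ (by nlinarith)
        _ ≤ _ := by rw [← pow_add]; exact Nat.pow_le_pow_right (by omega) (Nat.le_add_left _ _))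
    (fun y => ∃ q ∈ Q, src (c.O γ.b (ωy y)) q)
    ((NN.ex Q hM3 hQ fun q hq => wcs_nn hO hs hM (hQ' q hq).1.2.2 (hQ' q hq).1.2.1
      (ht ▸ (hQ' q hq).1.1)).mono le_rfl (le_trans (by
        rw [← pow_add]; exact Nat.pow_le_pow_right (by omega) (by omega)) hC))
    fun y hy ⟨q, hq, h⟩ => (hQ' q hq).2 _ (hag y) (fun z X => by
      by_cases h1 : z ∈ R ∧ X = ρ z
      · rw [h1.2, w2 y z h1.1, hπ z h1.1 fun v => y (⟨z, h1.1⟩, v)]
        exact hy _
      · rw [w1 y z X h1]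
        exact hγ z X) h
  let row : Cell → Bool → ℕ → Bool := fun z b =>
    if h : z ∈ R then fun v => xor (e z) (a ⟨z, h⟩ b (π z v)) else fun _ => b
  have w3 : ∀ z b, Tm (sz z) (row z b) (dp c.S z) true 0 ↔ b = true := fun z b => by
    simp only [row]
    split_ifs with h
    · rw [hπ z h, a1]
    · exact Tm_const (by have := cell_len z; omega) _ _ _ _
  refine ⟨fun z b => if c.n ≤ sz z ∧ c.U z then Function.update (γ.ω z) (ρ z) (row z b) else γ.ω z,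
    fun z b h1 h2 => ?_, fun β => ⟨fun p hp => ?_, fun q hq h => a2 (fun z => β z) ⟨q, hq, ?_⟩⟩⟩
  · beta_reduce
    rw [if_pos (And.intro h1 h2)]
    refine ⟨fun ⟨X, _, h⟩ => ?_, fun h => ⟨ρ z, ρ1 z h1 h2, ?_⟩⟩
    · by_cases h3 : X = ρ z
      · rwa [h3, Function.update_self, w3] at h
      · rw [Function.update_of_ne h3] at h
        exact absurd h (hγ z X)
    · rwa [Function.update_self, w3]
  · beta_reduce
    split_ifs with h
    · exact Function.update_of_ne (fun h1 => ρ2 _ h.1 h.2 (by rw [← h1]; exact hp)) _ _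
    · rfl
  · refine (wcs_loc fun a' ha => Ctx.O_congr fun z X h1 h2 => ⟨fun h3 => ?_, fun _ => rfl⟩).1 h
    beta_reduce
    rw [if_pos (And.intro h2 h3)]
    by_cases h4 : z ∈ R
    · simp only [ωy, row, dif_pos h4]
    · refine Eq.trans ?_ (w1 (fun p => a p.1 (β p.1) p.2) z X fun h => h4 h.1).symm
      refine Function.update_of_ne (fun h5 => h4 (mem_filter.2 ⟨mem_biUnion.2 ⟨q, hq,
        Y3 q (hQ' q hq).1.2.1 (hQ' q hq).1.2.2 a' ha z X h1 h2⟩, h2, h3, ?_⟩)) _ _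
      by_contra h6
      exact ρ3 z h2 h3 (by omega) q hq a' ha (h5 ▸ h1)

end Pool.Agent.P.MP_d3fb3e_lc
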