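import Mathlib

/-! The W-hierarchy relative to an oracle `A` (a set of bit strings). -/

namespace Pool.Agent.P.MP_d3fb3e_lc

/-- While-programs on registers named by `ι`, each a stack of bits. `ask r` queries the oracle. -/
inductive Prog (ι : Type) : Type
  | skip : Prog ι
  | push (r : ι) (b : Bool) : Prog ι
  | ask (r : ι) : Prog ι
  | seq (p q : Prog ι) : Prog ι
  | case (r : ι) (pn : Prog ι) (pb : Bool → Prog ι) : Prog ι
  | loop (r : ι) (pb : Bool → Prog ι) : Prog ι

/-- `Run A p s t n`: with oracle `A`, the program `p` started on the register contents `s` stops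
with contents `t` within `n` steps. -/
inductive Run {ι : Type} [DecidableEq ι] (A : List Bool → Bool) :
    Prog ι → (ι → List Bool) → (ι → List Bool) → ℕ → Prop
  | skip (s : ι → List Bool) : Run A .skip s s 1
  | push (r : ι) (b : Bool) (s : ι → List Bool) :
      Run A (.push r b) s (Function.update s r (b :: s r)) 1
  | ask (r : ι) (s : ι → List Bool) :
      Run A (.ask r) s (Function.update s r (A (s r) :: s r)) 1
  | seq {p q : Prog ι} {s t u : ι → List Bool} {m n : ℕ} :
      Run A p s t m → Run A q t u n → Run A (.seq p q) s u (m + n + 1)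
  | caseN {r : ι} {pn : Prog ι} {pb : Bool → Prog ι} {s t : ι → List Bool} {n : ℕ} :
      s r = [] → Run A pn s t n → Run A (.case r pn pb) s t (n + 1)
  | caseC {r : ι} {pn : Prog ι} {pb : Bool → Prog ι} {s t : ι → List Bool} {n : ℕ} {b : Bool}
      {l : List Bool} : s r = b :: l → Run A (pb b) (Function.update s r l) t n →
      Run A (.case r pn pb) s t (n + 1)
  | loopN {r : ι} {pb : Bool → Prog ι} {s : ι → List Bool} : s r = [] → Run A (.loop r pb) s s 1
  | loopC {r : ι} {pb : Bool → Prog ι} {s t u : ι → List Bool} {m n : ℕ} {b : Bool}
      {l : List Bool} : s r = b :: l → Run A (pb b) (Function.update s r l) t m →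
      Run A (.loop r pb) t u n → Run A (.loop r pb) s u (m + n + 1)
  | mono {p : Prog ι} {s t : ι → List Bool} {m n : ℕ} : Run A p s t m → m ≤ n → Run A p s t n

/-- The word that codes the instance `x` with parameter `k` (written in unary). -/
def code (x : List Bool) (k : ℕ) : List Bool := List.replicate (2 * k) true ++ false :: x

/-- `L` is fpt-reducible to `L'` relative to `A`: a program with oracle `A` turns the code of
`(x, k)` in register `0` into the code of `(x', k')` in time `f k * (|x| + 1) ^ c`, `k' ≤ f k`. -/
def Red (A : List Bool → Bool) (L L' : Set (List Bool × ℕ)) : Prop :=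
  ∃ (P : Prog ℕ) (f : ℕ → ℕ) (c : ℕ), Computable f ∧ ∀ x k, ∃ x' k' t,
    Run A P (fun r => if r = 0 then code x k else []) t (f k * (x.length + 1) ^ c) ∧
      t 0 = code x' k' ∧ k' ≤ f k ∧ ((x, k) ∈ L ↔ (x', k') ∈ L')

/-- The bit of the string `x` at position `⟨a, u⟩` (false beyond the end of `x`). -/
def bit (x : List Bool) (a u : ℕ) : Bool := x.getD (Nat.pair a u) false

/-- The kind of the node `u` of the circuit coded by `x`: `0` input, `1` NOT gate, `2` OR gate,
`3` oracle gate, `4` AND gate. -/
def kind (x : List Bool) (u : ℕ) : ℕ :=
  if bit x 0 u then 0 else if bit x 1 u then 1 else if bit x 2 u then 2 else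
    if bit x 3 u then 3 else 4

/-- The nodes that feed into the gate `u`, in increasing order. -/
def kids (x : List Bool) (u : ℕ) : List ℕ := (List.range x.length).filter (bit x (u + 4))

/-- `ok x h t b u`: the circuit below `u` has depth at most `h` and weft at most `t` (gates of any
kind with more than two predecessors are large), NOT gates have fan-in one, no oracle gate lies
below an oracle gate, and there is no oracle gate at all if `b` is false. -/
def ok (x : List Bool) : ℕ → ℕ → Bool → ℕ → Prop
  | 0, _, _, u => kind x u = 0
  | h + 1, t, b, u => kind x u = 0 ∨ ((kind x u = 1 → (kids x u).length = 1) ∧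
      (kind x u = 3 → b = true) ∧ (2 < (kids x u).length → 1 ≤ t) ∧
      ∀ v ∈ kids x u, ok x h (if 2 < (kids x u).length then t - 1 else t)
        (if kind x u = 3 then false else b) v)

/-- The value of the node `u` (of depth at most `h`) when exactly the inputs in `V` are true. An
oracle gate outputs the answer of `A` on the string of the values of its predecessors. -/
def val (A : List Bool → Bool) (x : List Bool) (V : Finset ℕ) : ℕ → ℕ → Bool
  | 0, u => decide (u ∈ V)
  | h + 1, u => if kind x u = 0 then decide (u ∈ V) else
      if kind x u = 1 then !(kids x u).all (val A x V h) else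
      if kind x u = 2 then (kids x u).any (val A x V h) else
      if kind x u = 3 then A ((kids x u).map (val A x V h)) else (kids x u).all (val A x V h)

/-- Weighted satisfiability of `A`-circuits of weft at most `t` and depth at most `h`; the output
node is `0`. -/
def WCS (A : List Bool → Bool) (t h : ℕ) : Set (List Bool × ℕ) :=
  {p | ok p.1 h t true 0 ∧ ∃ V : Finset ℕ, V.card = p.2 ∧ (∀ u ∈ V, kind p.1 u = 0) ∧
    val A p.1 V h 0 = true}

/-- The class `W[t]` relative to `A`. -/
def W (A : List Bool → Bool) (t : ℕ) : Set (Set (List Bool × ℕ)) := {L | ∃ h, Red A L (WCS A t h)}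

end Pool.Agent.P.MP_d3fb3e_lc
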