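import Pool.Agent.P.MP_d3fb3e_lc.Cell

/-! The greedy part of a stage: deciding the cells that the machine can reach. -/

namespace Pool.Agent.P.MP_d3fb3e_lc

open Finset Classical
open Pool.Agent.Lib.helper21 (sz)

/-- Contents of the rows of a cell. -/
abbrev Ct : Type := List Bool → ℕ → Bool

/-- The depth of the trees of a cell. -/
noncomputable def dp (S : Set ℕ) (z : Cell) : ℕ := if z.1 + 1 ∈ S then z.1 else z.1 + 1

/-- The truth of the instance `q = (t, h, k, x)`. -/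
def src (A : List Bool → Bool) (q : Cell) : Prop := (q.2.2.2, q.2.2.1) ∈ WCS A q.1 q.2.1

/-- The instance coded by a cell. -/
def up (z : Cell) : Cell := (z.1 + 2, z.2)

/-- The addresses read by an instance. -/
def rds (q : Cell) : Finset (List Bool) := reads q.2.2.2 q.2.2.1 q.2.1

/-- The row hit by an address. -/
noncomputable def hf (π : Cell → ℕ → Bool) (a : List Bool) : Cell × List Bool :=
  if h : ∃ p : Cell × List Bool, Hit π a p.1 p.2 then h.choose else default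

theorem hf_eq {π : Cell → ℕ → Bool} {a : List Bool} {z : Cell} {X : List Bool} (h : Hit π a z X) :
    hf π a = (z, X) := by
  have h1 : ∃ p : Cell × List Bool, Hit π a p.1 p.2 := ⟨(z, X), h⟩
  rw [hf, dif_pos h1]
  exact Prod.ext (h1.choose_spec.uniq h).1 (h1.choose_spec.uniq h).2

/-- The data of a stage. -/
structure Ctx where
  S : Set ℕ
  t : ℕ
  K : ℕ
  K' : ℕ
  n : ℕ
  M : ℕ
  zs : Cell
  old : Cell → Ct
  π : Cell → ℕ → Bool

/-- A condition: decided cells with their bits, fixed rows with their contents. -/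
structure Sta where
  Z : Finset Cell
  b : Cell → Bool
  F : Finset (Cell × List Bool)
  ω : Cell → Ct

/-- Agreement on the fixed rows. -/
def Sta.Ag (γ : Sta) (ω : Cell → Ct) : Prop := ∀ p ∈ γ.F, ω p.1 p.2 = γ.ω p.1 p.2

/-- Extension of conditions. -/
def Sta.le (γ γ' : Sta) : Prop :=
  γ.Z ⊆ γ'.Z ∧ (∀ z ∈ γ.Z, γ'.b z = γ.b z) ∧ γ.F ⊆ γ'.F ∧ γ.Ag γ'.ω

theorem Sta.le_refl (γ : Sta) : γ.le γ := ⟨subset_rfl, fun _ _ => rfl, subset_rfl, fun _ _ => rfl⟩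

theorem Sta.le.ag {γ γ' : Sta} (h : γ.le γ') {ω : Cell → Ct} (hω : γ'.Ag ω) : γ.Ag ω :=
  fun p hp => (hω p (h.2.2.1 hp)).trans (h.2.2.2 p hp)

theorem Sta.le.trans {γ γ' γ'' : Sta} (h : γ.le γ') (h' : γ'.le γ'') : γ.le γ'' :=
  ⟨h.1.trans h'.1, fun z hz => (h'.2.1 z (h.1 hz)).trans (h.2.1 z hz), h.2.2.1.trans h'.2.2.1,
    h.ag h'.2.2.2⟩

namespace Ctx

variable (c : Ctx)

/-- Cells that stay undecided. -/
def U (z : Cell) : Prop :=
  (z = c.zs ∨ z.1 + 1 ∈ c.S) ∧ (c.K' < par z ∨ (c.t ≤ dp c.S z ∧ c.K < par z))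

/-- The contents of all cells. -/
noncomputable def wld (b : Cell → Bool) (ω : Cell → Ct) (z : Cell) : Ct :=
  if sz z < c.n then c.old z else if c.U z then ω z else fun _ _ => b z

/-- The oracle. -/
noncomputable def O (b : Cell → Bool) (ω : Cell → Ct) : List Bool → Bool :=
  orc fun z => (c.π z, c.wld b ω z)

/-- All rows are false. -/
def AF (ω : Cell → Ct) : Prop := ∀ z X, ¬ Tm (sz z) (ω z X) (dp c.S z) true 0

/-- Instances that are treated by random restrictions. -/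
def small (q : Cell) : Prop := q.1 ≤ c.t ∧ par q ≤ c.K' ∧ q.2.2.2.length ≤ c.M

/-- The cells hit by the instance `q` lie in `Y`. -/
def TH (Y : Finset Cell) (q : Cell) : Prop :=
  ∀ a ∈ rds q, ∀ z X, Hit c.π a z X → c.n ≤ sz z → ¬ c.U z → z ∈ Y

/-- The instance `q` has been given the value `v`. -/
def Good (γ : Sta) (q : Cell) (v : Bool) : Prop :=
  c.TH γ.Z q ∧ ((∀ ω, γ.Ag ω → (src (c.O γ.b ω) q ↔ v = true)) ∨
    (v = false ∧ c.small q ∧ ∀ ω, γ.Ag ω → c.AF ω → ¬ src (c.O γ.b ω) q))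

/-- The invariant. -/
def Inv (γ : Sta) : Prop :=
  c.AF γ.ω ∧ ∀ z ∈ γ.Z, z.1 + 1 ∈ c.S → c.Good γ (up z) (γ.b z)

/-- All cells hit by `q` lie in `Y`. -/
def AH (Y : Finset Cell) (q : Cell) : Prop :=
  ∀ a ∈ rds q, ∀ z X, Hit c.π a z X → c.n ≤ sz z → z ∈ Y

/-- Closed sets of cells. -/
def Cl (Y : Finset Cell) : Prop :=
  ∀ z ∈ Y, z.2.2.2.length ≤ c.M ∧ (par z ≤ c.K' → c.AH Y z)

variable {c}

theorem O_congr {b b' : Cell → Bool} {ω ω' : Cell → Ct} {a : List Bool}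
    (h : ∀ z X, Hit c.π a z X → c.n ≤ sz z → (c.U z → ω z X = ω' z X) ∧ (¬ c.U z → b z = b' z)) :
    c.O b ω a = c.O b' ω' a := by
  refine orc_congr fun z X hz => ?_
  unfold wld
  split_ifs with h1 h2
  · rfl
  · exact (h z X hz (by omega)).1 h2
  · rw [(h z X hz (by omega)).2 h2]

theorem TH.src {Y : Finset Cell} {q : Cell} (h : c.TH Y q) {b b' : Cell → Bool}
    (hb : ∀ z ∈ Y, b z = b' z) (ω : Cell → Ct) : src (c.O b ω) q ↔ src (c.O b' ω) q :=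
  wcs_loc fun a ha => O_congr fun z X h1 h2 => ⟨fun _ => rfl, fun h3 => hb z (h a ha z X h1 h2 h3)⟩

theorem Good.mono {γ γ' : Sta} {q : Cell} {v : Bool} (h : c.Good γ q v) (hle : γ.le γ') :
    c.Good γ' q v :=
  ⟨fun a ha z X h1 h2 h3 => hle.1 (h.1 a ha z X h1 h2 h3), h.2.imp
    (fun h1 ω hω => (h.1.src hle.2.1 ω).trans (h1 ω (hle.ag hω)))
    fun ⟨h1, h2, h3⟩ => ⟨h1, h2, fun ω hω hf h4 =>
      h3 ω (hle.ag hω) hf ((h.1.src hle.2.1 ω).1 h4)⟩⟩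

theorem step (hM : 2 ≤ c.M) (hK : c.K' ≤ c.M) {γ : Sta} (hγ : c.AF γ.ω) {q : Cell}
    (hq : c.TH γ.Z q) (hx : q.2.2.2.length ≤ c.M) (hs : par q ≤ c.K ∨ c.small q) :
    ∃ F ω v, γ.le ⟨γ.Z, γ.b, F, ω⟩ ∧ c.AF ω ∧ F.card ≤ γ.F.card + c.M ^ (c.K + 2) ∧
      c.Good ⟨γ.Z, γ.b, F, ω⟩ q v := by
  have key : ∀ (R : Finset (List Bool)) (ω ω' : Cell → Ct),
      Sta.Ag ⟨γ.Z, γ.b, γ.F ∪ R.image (hf c.π), ω⟩ ω' → ∀ a ∈ R, c.O γ.b ω a = c.O γ.b ω' a :=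
    fun R ω ω' h a ha => O_congr fun z X h1 _ => ⟨fun _ => (h (z, X) (mem_union_right _
      (mem_image.2 ⟨a, ha, hf_eq h1⟩))).symm, fun _ => rfl⟩
  have hc : ∀ R : Finset (List Bool), R.card ≤ c.M ^ (c.K + 2) →
      (γ.F ∪ R.image (hf c.π)).card ≤ γ.F.card + c.M ^ (c.K + 2) := fun R hR =>
    (card_union_le _ _).trans (Nat.add_le_add_left (card_image_le.trans hR) _)
  rcases hs with hs | hs
  · refine ⟨γ.F ∪ (rds q).image (hf c.π), γ.ω, decide (src (c.O γ.b γ.ω) q),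
      ⟨subset_rfl, fun _ _ => rfl, subset_union_left, fun _ _ => rfl⟩, hγ,
      hc _ ((card_reads _ _ _ hM hx).trans (Nat.pow_le_pow_right (by omega) ?_)), hq,
      Or.inl fun ω hω => ?_⟩
    · unfold par at hs
      omega
    · rw [decide_eq_true_eq]
      exact (wcs_loc (key _ _ _ hω)).symm
  by_cases h1 : ∃ ω, γ.Ag ω ∧ c.AF ω ∧ src (c.O γ.b ω) q
  · obtain ⟨ω, h1, h2, h3⟩ := h1
    obtain ⟨R, -, h4, h5⟩ := wcs_wit h3
    refine ⟨γ.F ∪ R.image (hf c.π), ω, true, ⟨subset_rfl, fun _ _ => rfl, subset_union_left, h1⟩,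
      h2, hc _ (h4.trans ?_), hq, Or.inl fun ω' hω => iff_of_true (h5 _ (key _ _ _ hω)) rfl⟩
    have h6 := hs.2.1
    unfold par at h6
    calc _ ≤ c.M * c.M := Nat.mul_le_mul (by omega) hx
      _ ≤ _ := by rw [← sq]; exact Nat.pow_le_pow_right (by omega) (by omega)
  · exact ⟨γ.F, γ.ω, false, γ.le_refl, hγ, by omega, hq,
      Or.inr ⟨rfl, hs, fun ω h2 h3 h4 => h1 ⟨ω, h2, h3, h4⟩⟩⟩

theorem Inv.ext {γ : Sta} (h : c.Inv γ) {F : Finset (Cell × List Bool)} {ω : Cell → Ct}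
    (h1 : γ.le ⟨γ.Z, γ.b, F, ω⟩) (h2 : c.AF ω) : c.Inv ⟨γ.Z, γ.b, F, ω⟩ :=
  ⟨h2, fun z hz h3 => (h.2 z hz h3).mono h1⟩

theorem closure (hM : 2 ≤ c.M) (hK : c.K' ≤ c.M) (ht : c.t ∉ c.S) {γ : Sta}
    (hγ : c.Inv γ) (Y : Finset Cell) : c.Cl Y → ∃ γ', γ.le γ' ∧ c.Inv γ' ∧
      γ'.Z.card ≤ γ.Z.card + Y.card ∧ γ'.F.card ≤ γ.F.card + Y.card * c.M ^ (c.K + 2) ∧
      ∀ z ∈ Y, ¬ c.U z → z ∈ γ'.Z := by
  induction Y using Finset.induction_on_max_value (fun z : Cell => sz z) with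
  | empty => exact fun _ => ⟨γ, γ.le_refl, hγ, by simp, by simp, by simp⟩
  | insert z Y hz hmax ih =>
    intro hY
    have hlt : ∀ y ∈ insert z Y, par y ≤ c.K' → c.AH Y y := fun y hy h1 a ha z' X h2 h3 => by
      refine (mem_insert.1 ((hY y hy).2 h1 a ha z' X h2 h3)).resolve_left ?_
      rintro rfl
      have h4 := h2.lt.trans_le (reads_len ha)
      have h5 := cell_len y
      rcases mem_insert.1 hy with rfl | hy
      · omega
      · have := hmax y hy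
        omega
    obtain ⟨γ₁, a1, a2, a3, a4, a5⟩ := ih fun y hy =>
      ⟨(hY y (mem_insert_of_mem hy)).1, hlt y (mem_insert_of_mem hy)⟩
    rw [card_insert_of_notMem hz, Nat.succ_mul]
    by_cases h1 : c.U z ∨ z ∈ γ₁.Z
    · refine ⟨γ₁, a1, a2, by omega, by omega, fun y hy h2 => ?_⟩
      rcases mem_insert.1 hy with rfl | hy
      · exact h1.resolve_left h2
      · exact a5 y hy h2
    rw [not_or] at h1
    have h2 : ∃ F ω v, γ₁.le ⟨γ₁.Z, γ₁.b, F, ω⟩ ∧ c.AF ω ∧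
        F.card ≤ γ₁.F.card + c.M ^ (c.K + 2) ∧
        (z.1 + 1 ∈ c.S → c.Good ⟨γ₁.Z, γ₁.b, F, ω⟩ (up z) v) := by
      by_cases h3 : z.1 + 1 ∈ c.S
      · have h4 := not_or.1 fun h => h1.1 ⟨Or.inr h3, h⟩
        have h5 := (hY z (mem_insert_self _ _)).1
        obtain ⟨F, ω, v, b1, b2, b3, b4⟩ := step hM hK a2.1 (q := up z)
          (fun a ha y X h6 h7 h8 => a5 y (hlt z (mem_insert_self _ _) (by omega) a ha y X h6 h7) h8)
          h5 (by
            by_cases h6 : par z ≤ c.K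
            · exact Or.inl h6
            · have h7 : ¬ c.t ≤ dp c.S z := fun h => h4.2 ⟨h, by omega⟩
              rw [dp, if_pos h3] at h7
              have h8 : z.1 + 1 ≠ c.t := fun h => ht (h ▸ h3)
              exact Or.inr ⟨show z.1 + 2 ≤ _ by omega, not_lt.1 h4.1, h5⟩)
        exact ⟨F, ω, v, b1, b2, b3, fun _ => b4⟩
      · exact ⟨γ₁.F, γ₁.ω, false, γ₁.le_refl, a2.1, by omega, fun h => absurd h h3⟩
    obtain ⟨F, ω, v, b1, b2, b3, b4⟩ := h2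
    have b5 : Sta.le ⟨γ₁.Z, γ₁.b, F, ω⟩ ⟨insert z γ₁.Z, Function.update γ₁.b z v, F, ω⟩ :=
      ⟨subset_insert _ _, fun y hy => Function.update_of_ne (ne_of_mem_of_not_mem hy h1.2) _ _,
        subset_rfl, fun _ _ => rfl⟩
    refine ⟨_, a1.trans (b1.trans b5), ⟨b2, fun y hy h3 => ?_⟩,
      (card_insert_le _ _).trans (by omega), show F.card ≤ _ by omega, fun y hy h2 => ?_⟩
    · rcases mem_insert.1 hy with rfl | hy
      · simpa using (b4 h3).mono b5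
      · rw [b5.2.1 y hy]
        exact ((a2.ext b1 b2).2 y hy h3).mono b5
    · rcases mem_insert.1 hy with rfl | hy
      · exact mem_insert_self _ _
      · exact mem_insert_of_mem (a5 y hy h2)

/-- The oracles that are compatible with a condition. -/
def sem (c : Ctx) (γ : Sta) : Set (List Bool → Bool) :=
  {A | ∃ b ω, (∀ z ∈ γ.Z, b z = γ.b z) ∧ γ.Ag ω ∧ ∀ a : List Bool, a.length ≤ c.M → A a = c.O b ω a}

theorem sem_anti {γ γ' : Sta} (h : γ.le γ') : c.sem γ' ⊆ c.sem γ :=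
  fun _ ⟨b, ω, h1, h2, h3⟩ => ⟨b, ω, fun z hz => (h1 z (h.1 hz)).trans (h.2.1 z hz), h.ag h2, h3⟩

/-- The invariant and the budget after `i` steps. -/
def Ok (c : Ctx) (i : ℕ) (γ : Sta) : Prop :=
  c.Inv γ ∧ γ.Z.card ≤ i * (c.M + 2) ∧ γ.F.card ≤ i * ((c.M + 3) * c.M ^ (c.K + 2))

/-- The pointers are hard to guess. -/
def HP (c : Ctx) : Prop :=
  ∀ q : Cell, par q ≤ c.K' → q.2.2.2.length ≤ c.M → ∃ Y, Y.card ≤ c.M + 1 ∧ c.Cl Y ∧ c.AH Y q

variable (hM : 2 ≤ c.M) (hK : c.K' ≤ c.M) (ht : c.t ∉ c.S) (hP : c.HP)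
include hM hK ht hP

theorem query (i : ℕ) (γ : Sta) (a : List Bool) (ha : a.length ≤ c.M) (hγ : c.Ok i γ) :
    ∃ γ' v, c.Ok (i + 1) γ' ∧ c.sem γ' ⊆ c.sem γ ∧ ∀ A ∈ c.sem γ', A a = v := by
  have h1 : ∃ Y, Y.card ≤ c.M + 2 ∧ c.Cl Y ∧ ∀ z X, Hit c.π a z X → z ∈ Y := by
    by_cases h : ∃ z X, Hit c.π a z X
    · obtain ⟨z, X, h⟩ := h
      have h2 : z.2.2.2.length ≤ c.M := by have := h.lt; have := cell_len z; omega
      by_cases h3 : par z ≤ c.K'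
      · obtain ⟨Y, a1, a2, a3⟩ := hP z h3 h2
        refine ⟨insert z Y, (card_insert_le _ _).trans (by omega), fun y hy => ?_,
          fun y X' hy => (hy.uniq h).1 ▸ mem_insert_self _ _⟩
        rcases mem_insert.1 hy with rfl | hy
        · exact ⟨h2, fun _ a ha y X h4 h5 => mem_insert_of_mem (a3 a ha y X h4 h5)⟩
        · exact ⟨(a2 y hy).1, fun h a ha y' X h4 h5 =>
            mem_insert_of_mem ((a2 y hy).2 h a ha y' X h4 h5)⟩
      · refine ⟨{z}, by simp, fun y hy => ?_, fun y X' hy => (hy.uniq h).1 ▸ mem_singleton_self _⟩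
        rw [mem_singleton.1 hy]
        exact ⟨h2, fun h => absurd h h3⟩
    · exact ⟨∅, by simp, by simp [Cl], fun z X h' => absurd ⟨z, X, h'⟩ h⟩
  obtain ⟨Y, a1, a2, a3⟩ := h1
  obtain ⟨γ', b1, b2, b3, b4, b5⟩ := closure hM hK ht hγ.1 Y a2
  have b6 : γ'.le ⟨γ'.Z, γ'.b, insert (hf c.π a) γ'.F, γ'.ω⟩ :=
    ⟨subset_rfl, fun _ _ => rfl, subset_insert _ _, fun _ _ => rfl⟩
  refine ⟨_, c.O γ'.b γ'.ω a, ⟨b2.ext b6 b2.1, ?_, (card_insert_le _ _).trans ?_⟩,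
    sem_anti (b1.trans b6), fun A ⟨b, ω, d1, d2, d3⟩ => (d3 a ha).trans (O_congr fun z X h1 _ =>
      ⟨fun _ => d2 (z, X) (hf_eq h1 ▸ mem_insert_self _ _), fun h => d1 z (b5 z (a3 z X h1) h)⟩)⟩
  · have := hγ.2.1
    rw [Nat.succ_mul]
    exact b3.trans (by omega)
  · have := hγ.2.2
    have h2 := Nat.mul_le_mul_right (c.M ^ (c.K + 2)) a1
    have h3 : 1 ≤ c.M ^ (c.K + 2) := Nat.one_le_pow _ _ (by omega)
    have h4 := Nat.succ_mul (c.M + 2) (c.M ^ (c.K + 2))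
    rw [Nat.succ_mul i]
    simp only [Nat.succ_eq_add_one, Nat.add_assoc, Nat.reduceAdd] at h4
    omega

theorem final (i : ℕ) (γ : Sta) (hγ : c.Ok i γ) {q : Cell} (hq : c.small q) :
    ∃ γ' v, c.Ok (i + 1) γ' ∧ c.sem γ' ⊆ c.sem γ ∧ c.Good γ' q v := by
  obtain ⟨Y, a1, a2, a3⟩ := hP q hq.2.1 hq.2.2
  obtain ⟨γ', b1, b2, b3, b4, b5⟩ := closure hM hK ht hγ.1 Y a2
  obtain ⟨F, ω, v, d1, d2, d3, d4⟩ := step hM hK b2.1 (q := q)
    (fun a ha y X h6 h7 h8 => b5 y (a3 a ha y X h6 h7) h8) hq.2.2 (Or.inr hq)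
  refine ⟨_, v, ⟨b2.ext d1 d2, ?_, d3.trans ?_⟩, sem_anti (b1.trans d1), d4⟩
  · have := hγ.2.1
    rw [Nat.succ_mul]
    exact b3.trans (by omega)
  · have := hγ.2.2
    have h2 := Nat.mul_le_mul_right (c.M ^ (c.K + 2)) a1
    have h3 := Nat.succ_mul (c.M + 1) (c.M ^ (c.K + 2))
    have h4 := Nat.succ_mul (c.M + 2) (c.M ^ (c.K + 2))
    rw [Nat.succ_mul i]
    simp only [Nat.succ_eq_add_one, Nat.add_assoc, Nat.reduceAdd] at h3 h4
    omega

end Ctx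

end Pool.Agent.P.MP_d3fb3e_lc
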