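import Pool.Agent.P.MP_d3fb3e_lc.Box

/-! Choice of the pointers. -/

namespace Pool.Agent.P.MP_d3fb3e_lc

open Finset Classical
open Pool.Agent.Lib.helper21 (sz)

theorem words_exists (M : ℕ) : ∃ Lf : Finset (List Bool), Lf.card ≤ (M + 1) * 2 ^ M ∧
    ∀ x : List Bool, x.length ≤ M → x ∈ Lf := by
  refine ⟨(range (M + 1) ×ˢ (univ : Finset (Fin M → Bool))).image
    fun p => (List.ofFn p.2).take p.1, card_image_le.trans (by simp), fun x hx => mem_image.2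
      ⟨(x.length, fun i => x.getD i false), by simpa using Nat.lt_succ_of_le hx, ?_⟩⟩
  refine List.ext_getElem (by simpa using hx) fun i _ h => ?_
  simp [h]

theorem hp_exists (c : Ctx) (hM : 2 ≤ c.M) (hK : c.K' ≤ c.M)
    (hn : 16 * ((c.M + 3) * c.M ^ (c.K' + 1)) ≤ 2 ^ c.n) : ∃ π : Cell → ℕ → Bool,
      (∀ z, sz z < c.n → π z = c.π z) ∧ Ctx.HP { c with π := π } := by
  set Cf := (cell_fin c.M).toFinset.filter fun z => c.n ≤ sz z with hCf
  have hC : ∀ z, z ∈ Cf ↔ sz z ≤ c.M ∧ c.n ≤ sz z := fun z => by simp [hCf]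
  obtain ⟨Lf, l1, l2⟩ := words_exists c.M
  let emb : (Fin c.n → Bool) → ℕ → Bool := fun u j => if h : j < c.n then u ⟨j, h⟩ else false
  let E0 : ℕ × ℕ × List Bool → Finset (Cf × (Fin c.n → Bool)) := fun q => univ.filter fun e =>
    q.2.1 + q.1 ≤ c.K' ∧ q.2.2.length ≤ c.M ∧ ∃ a ∈ reads q.2.2 q.2.1 q.1, ∃ v X,
      a = rA e.1 ((List.range (sz e.1.1)).map (emb e.2)) v X
  have h0 : ∀ q, (E0 q).card ≤ c.M ^ (c.K' + 1) := fun q => by
    rcases (E0 q).eq_empty_or_nonempty with h | ⟨e0, h⟩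
    · simp [h]
    obtain ⟨a1, a2, -⟩ := (mem_filter.1 h).2
    have a3 : ∀ e ∈ E0 q, ∃ a ∈ reads q.2.2 q.2.1 q.1, ∃ v X,
      a = rA e.1 ((List.range (sz e.1.1)).map (emb e.2)) v X := fun e he => (mem_filter.1 he).2.2.2
    choose! f f1 f2 using a3
    refine (card_le_card_of_injOn f f1 fun e he e' he' h => ?_).trans
      ((card_reads _ _ _ hM a2).trans (Nat.pow_le_pow_right (by omega) (by omega)))
    obtain ⟨v, X, b1⟩ := f2 e he
    obtain ⟨v', X', b2⟩ := f2 e' he'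
    obtain ⟨b3, b4, -⟩ := rA_inj (b1.symm.trans (h.trans b2))
    refine Prod.ext (Subtype.ext b3) (funext fun j => ?_)
    rw [← b3] at b4
    simpa [emb] using List.map_inj_left.1 b4 j
      (List.mem_range.2 (j.2.trans_le ((hC _).1 e.1.2).2))
  obtain ⟨ω, hω⟩ := ptr_exists (range (c.M + 1) ×ˢ range (c.M + 1) ×ˢ Lf) E0 (fun z => E0 z.1.2)
    (r := c.M + 2) (fun q _ => h0 q) (fun z => h0 _) (by
      have a1 : c.M + 1 ≤ 2 ^ c.M := Nat.lt_two_pow_self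
      have a2 : (range (c.M + 1) ×ˢ range (c.M + 1) ×ˢ Lf).card < 16 ^ (c.M + 2) := by
        simp only [card_product, card_range]
        calc _ ≤ 2 ^ c.M * (2 ^ c.M * (2 ^ c.M * 2 ^ c.M)) :=
              Nat.mul_le_mul a1 (Nat.mul_le_mul a1 (l1.trans (Nat.mul_le_mul_right _ a1)))
          _ = 16 ^ c.M := by rw [← mul_pow, ← mul_pow, ← mul_pow]; norm_num
          _ < _ := Nat.pow_lt_pow_right (by omega) (by omega)
      refine (Nat.mul_lt_mul_of_pos_right a2 (by positivity)).trans_le ?_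
      rw [← mul_pow]
      exact Nat.pow_le_pow_left (by simpa using hn) _)
  refine ⟨fun z => if h : z ∈ Cf then emb (ω ⟨z, h⟩) else c.π z,
    fun z hz => dif_neg fun h => by have := (hC z).1 h; omega, fun q h1 h2 => ?_⟩
  have key : ∀ q : Cell, par q ≤ c.K' → q.2.2.2.length ≤ c.M → ∀ a ∈ rds q, ∀ z X,
      Hit (fun z => if h : z ∈ Cf then emb (ω ⟨z, h⟩) else c.π z) a z X → c.n ≤ sz z →
      ∃ h : z ∈ Cf, (⟨z, h⟩, ω ⟨z, h⟩) ∈ E0 q.2 := fun q h1 h2 a ha z X h3 h4 => by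
    have h5 : z ∈ Cf := (hC z).2 ⟨(h3.lt.le.trans (reads_len ha)).trans h2, h4⟩
    obtain ⟨v, h3⟩ := h3
    rw [ptr, dif_pos h5] at h3
    exact ⟨h5, mem_filter.2 ⟨mem_univ _, h1, h2, a, ha, v, X, h3⟩⟩
  obtain ⟨Y, y1, y2, y3⟩ := hω q.2 (by
    have h3 : par q ≤ c.K' := h1
    unfold par at h3
    simp only [mem_product, mem_range]
    exact ⟨by omega, by omega, l2 _ h2⟩)
  refine ⟨Y.image Subtype.val, card_image_le.trans (Nat.le_of_lt_succ y1), fun z hz => ?_,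
    fun a ha z X h3 h4 => ?_⟩
  · obtain ⟨z, hz', rfl⟩ := mem_image.1 hz
    have h3 : z.1.2.2.2.length ≤ c.M := (cell_len _).le.trans ((hC _).1 z.2).1
    refine ⟨h3, fun h4 a ha y X h5 h6 => ?_⟩
    obtain ⟨h7, h8⟩ := key z h4 h3 a ha y X h5 h6
    exact mem_image_of_mem Subtype.val (y3 z hz' _ h8)
  · obtain ⟨h7, h8⟩ := key q h1 h2 a ha z X h3 h4
    exact mem_image_of_mem Subtype.val (y2 _ h8)

end Pool.Agent.P.MP_d3fb3e_lc
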