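import Pool.Agent.P.MP_d3fb3e_lc.Mach
import Pool.Agent.P.MP_d3fb3e_lc.Circ

/-! The inclusions between consecutive levels, and the code of a circuit given by its gates. -/

namespace Pool.Agent.P.MP_d3fb3e_lc

open Classical
open Pool.Agent.Lib.helper21 (Bd Rl RealT Enc pairW PT sz)
open Pool.Agent.Lib.helper26

variable {α : Type} [Enc α] {A : List Bool → Bool}

@[fun_prop] theorem PT_natPair {f g : α → ℕ} (hf : PT f) (hg : PT g) :
    PT fun a => Nat.pair (f a) (g a) :=
  PT.of_eq (f := fun a => cond (decide (f a < g a)) (g a * g a + f a) (f a * f a + f a + g a))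
    (by fun_prop) fun a => by by_cases h : f a < g a <;> simp [Nat.pair, h]

@[fun_prop] theorem PT_bit {x : α → List Bool} {f g : α → ℕ} (hx : PT x) (hf : PT f) (hg : PT g) :
    PT fun a => bit (x a) (f a) (g a) := by unfold bit; fun_prop

@[fun_prop] theorem PT_kind {x : α → List Bool} {f : α → ℕ} (hx : PT x) (hf : PT f) :
    PT fun a => kind (x a) (f a) :=
  PT.of_eq (f := fun a => cond (bit (x a) 0 (f a)) 0 (cond (bit (x a) 1 (f a)) 1
    (cond (bit (x a) 2 (f a)) 2 (cond (bit (x a) 3 (f a)) 3 4)))) (by fun_prop)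
    fun a => by simp [kind, Bool.cond_eq_ite]

@[fun_prop] theorem PT_kids {x : α → List Bool} {f : α → ℕ} (hx : PT x) (hf : PT f) :
    PT fun a => kids (x a) (f a) := by unfold kids; fun_prop

theorem PT_ok (h t : ℕ) (b : Bool) : PT fun p : List Bool × ℕ => decide (ok p.1 h t b p.2) := by
  induction h generalizing t b with
  | zero =>
    exact PT.of_eq (f := fun p : List Bool × ℕ => decide (kind p.1 p.2 = 0)) (by fun_prop)
      fun p => decide_eq_decide.2 Iff.rfl
  | succ h ih =>
    have h1 : ∀ t b, PT fun p : List Bool × ℕ =>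
        (kids p.1 p.2).all fun v => decide (ok p.1 h t b v) := fun t b =>
      PT.all (by fun_prop) ((ih t b).comp (g := fun q : (List Bool × ℕ) × ℕ => (q.1.1, q.2))
        (by fun_prop))
    have a1 := h1 (t - 1) false
    have a2 := h1 (t - 1) b
    have a3 := h1 t false
    have a4 := h1 t b
    refine PT.of_eq (f := fun p : List Bool × ℕ => decide (kind p.1 p.2 = 0) ||
      ((!decide (kind p.1 p.2 = 1) || decide ((kids p.1 p.2).length = 1)) &&
      ((!decide (kind p.1 p.2 = 3) || b) &&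
      ((!decide (2 < (kids p.1 p.2).length) || decide (1 ≤ t)) &&
      cond (decide (2 < (kids p.1 p.2).length))
        (cond (decide (kind p.1 p.2 = 3)) ((kids p.1 p.2).all fun v => decide (ok p.1 h (t - 1) false v))
          ((kids p.1 p.2).all fun v => decide (ok p.1 h (t - 1) b v)))
        (cond (decide (kind p.1 p.2 = 3)) ((kids p.1 p.2).all fun v => decide (ok p.1 h t false v))
          ((kids p.1 p.2).all fun v => decide (ok p.1 h t b v))))))) (by fun_prop) fun p => ?_
    rw [Bool.eq_iff_iff, decide_eq_true_eq, ok]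
    by_cases c1 : 2 < (kids p.1 p.2).length <;> by_cases c2 : kind p.1 p.2 = 3 <;>
      simp [c1, c2, imp_iff_not_or]

theorem RA.ofPT {R : List Bool × ℕ → List Bool × ℕ}
    (h : PT fun p : ℕ × List Bool => ((R (p.2, p.1)).2, (R (p.2, p.1)).1)) :
    RA A (fun p : List Bool × ℕ => (code p.1 p.2).length) (fun p => code p.1 p.2)
      fun p => code (R p).1 (R p).2 := by
  have h1 : PT fun p : ℕ × Raw => (p.1, p.2.w) :=
    PT.pair (by fun_prop) (PT_ofRaw.comp (by fun_prop))
  have h2 : PT fun p : ℕ × List Bool => (p.1, Raw.mk p.2) :=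
    PT.pair (by fun_prop) (PT_toRaw.comp (by fun_prop))
  have h3 := Rl.reindex (h2.comp (h.comp h1)) fun p : List Bool × ℕ => (p.2, Raw.mk p.1)
  simp only [code_eq]
  exact RA.of h3

theorem W_mono (A : List Bool → Bool) (t : ℕ) : W A t ⊆ W A (t + 1) := by
  rintro L ⟨h, hL⟩
  have h1 : PT fun p : ℕ × List Bool => decide (ok p.2 h t true 0) :=
    (PT_ok h t true).comp (g := fun p : ℕ × List Bool => (p.2, 0)) (by fun_prop)
  refine ⟨h, hL.trans (fun p => if ok p.1 h t true 0 then p else ([], 1)) 1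
    (RA.ofPT (PT.of_eq (f := fun p : ℕ × List Bool => cond (decide (ok p.2 h t true 0)) p (1, []))
      (by fun_prop) fun p => ?_)) (fun p => ?_) fun p => ?_⟩
  · by_cases c : ok p.2 h t true 0 <;> simp [c]
  · split_ifs
    · nlinarith
    · exact Nat.one_le_pow _ _ (by omega)
  · split_ifs with c
    · exact ⟨fun a => ⟨ok_mono (Nat.le_succ t) c, a.2⟩, fun a => ⟨c, a.2⟩⟩
    · refine iff_of_false (fun a => c a.1) fun a => ?_
      obtain ⟨V, h1, -⟩ := mem_wcs.1 a
      obtain ⟨h2, h3⟩ := Finset.mem_powersetCard.1 h1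
      simp [Finset.subset_empty.1 h2] at h3

/-- The wires and the kinds of the gates. -/
def tab (ty : ℕ → ℕ) (K : ℕ → List ℕ) (a u : ℕ) : Bool :=
  cond (decide (a < 4)) (decide (ty u = a)) ((K (a - 4)).any fun v => decide (v = u))

/-- The code of the circuit with kinds `ty` and predecessors `K`. -/
def mkC (B : ℕ) (ty : ℕ → ℕ) (K : ℕ → List ℕ) : List Bool :=
  (List.range (B * B)).map fun i => (List.range B).any fun a => (List.range B).any fun u =>
    decide (Nat.pair a u = i) && tab ty K a u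

theorem PT_mkC {B : α → ℕ} {ty : α → ℕ → ℕ} {K : α → ℕ → List ℕ} (hB : PT B)
    (h1 : PT fun p : α × ℕ => ty p.1 p.2) (h2 : PT fun p : α × ℕ => K p.1 p.2) :
    PT fun a => mkC (B a) (ty a) (K a) := by
  have h3 : PT fun p : ((α × ℕ) × ℕ) × ℕ => tab (ty p.1.1.1) (K p.1.1.1) p.1.2 p.2 := by
    have a1 := h1.comp (g := fun p : ((α × ℕ) × ℕ) × ℕ => (p.1.1.1, p.2)) (by fun_prop)
    have a2 := h2.comp (g := fun p : ((α × ℕ) × ℕ) × ℕ => (p.1.1.1, p.1.2 - 4)) (by fun_prop)
    unfold tab
    fun_prop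
  unfold mkC
  exact PT.map (by fun_prop) (PT.any (by fun_prop) (PT.any (by fun_prop) (PT.and (by fun_prop) h3)))

variable {B : ℕ} {ty : ℕ → ℕ} {K : ℕ → List ℕ}

theorem bit_mkC (a u : ℕ) : bit (mkC B ty K) a u = true ↔ a < B ∧ u < B ∧ tab ty K a u = true := by
  by_cases h : Nat.pair a u < B * B
  · simp only [bit, mkC, List.getD_eq_getElem?_getD, List.getElem?_map, List.getElem?_range h,
      Option.map_some, Option.getD_some, List.any_eq_true, List.mem_range, Bool.and_eq_true,
      decide_eq_true_eq, Nat.pair_eq_pair]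
    exact ⟨fun ⟨_, h1, _, h2, ⟨rfl, rfl⟩, h3⟩ => ⟨h1, h2, h3⟩,
      fun ⟨h1, h2, h3⟩ => ⟨a, h1, u, h2, ⟨rfl, rfl⟩, h3⟩⟩
  · rw [bit, List.getD_eq_default _ _ (by simpa [mkC] using h)]
    refine iff_of_false (by simp) fun ⟨h1, h2, _⟩ => h ((Nat.pair_lt_max_add_one_sq a u).trans_le ?_)
    rw [sq]
    exact Nat.mul_self_le_mul_self (by omega)

theorem kind_mkC (hB : 4 ≤ B) (hty : ∀ u, ty u ≤ 4) (u : ℕ) :
    kind (mkC B ty K) u = if u < B then ty u else 4 := by
  have h : ∀ a < 4, bit (mkC B ty K) a u = true ↔ u < B ∧ ty u = a := fun a ha => by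
    simp [bit_mkC, tab, ha, show a < B by omega]
  have := hty u
  simp only [kind, h 0 (by omega), h 1 (by omega), h 2 (by omega), h 3 (by omega)]
  split_ifs <;> omega

theorem kids_mkC {u : ℕ} (hu : u + 4 < B) (h1 : (K u).Pairwise (· < ·)) (h2 : ∀ v ∈ K u, v < B) :
    kids (mkC B ty K) u = K u := by
  refine List.Pairwise.eq_of_mem_iff (r := (· < ·)) (List.pairwise_lt_range.filter _) h1 fun v => ?_
  simp only [kids, List.mem_filter, List.mem_range, bit_mkC, tab]
  simp only [mkC, List.length_map, List.length_range, hu, true_and]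
  simp only [show ¬ u + 4 < 4 by omega, decide_false, cond_false, Nat.add_sub_cancel,
    List.any_eq_true, decide_eq_true_eq, exists_eq_right]
  exact ⟨fun h => h.2.2, fun h => ⟨(h2 v h).trans_le (Nat.le_mul_self B), h2 v h, h⟩⟩

end Pool.Agent.P.MP_d3fb3e_lc
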