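import Pool.Agent.P.MP_d3fb3e_lc.Defs
import Pool.Agent.Lib.helper26.PTExtra

/-! Oracle programs: renaming, composition, loops, and composition of reductions. -/

namespace Pool.Agent.P.MP_d3fb3e_lc

open Function Polynomial
open Pool.Agent.Lib.helper21 (St st Bd Rl RealT S4 rg st_eq_S4 S4_up S4_up0 S4_n S4_0 update_st
  extend_update eval_mono Enc pairW PT sz)
open Pool.Agent.Lib.helper26 (Raw)

variable {ι κ α : Type} {A : List Bool → Bool}

theorem Run.cast [DecidableEq ι] {p : Prog ι} {s t s' t' : St ι} {m n : ℕ} (h : Run A p s t m)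
    (hs : s = s') (ht : t = t') (hn : m ≤ n) : Run A p s' t' n := by
  subst hs ht; exact h.mono hn

/-- Renaming of registers. -/
def Prog.map (f : ι → κ) : Prog ι → Prog κ
  | .skip => .skip
  | .push r b => .push (f r) b
  | .ask r => .ask (f r)
  | .seq p q => .seq (p.map f) (q.map f)
  | .case r pn pb => .case (f r) (pn.map f) fun b => (pb b).map f
  | .loop r pb => .loop (f r) fun b => (pb b).map f

theorem Run.map [DecidableEq ι] [DecidableEq κ] {f : ι → κ} (hf : Injective f) (e : St κ)
    {p : Prog ι} {s t : St ι} {n : ℕ} (h : Run A p s t n) :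
    Run A (p.map f) (extend f s e) (extend f t e) n := by
  induction h with
  | skip s => exact Run.skip _
  | push r b s =>
    refine (Run.push (f r) b _).cast rfl ?_ le_rfl
    rw [extend_update hf, hf.extend_apply]
  | ask r s =>
    refine (Run.ask (f r) _).cast rfl ?_ le_rfl
    rw [extend_update hf, hf.extend_apply]
  | seq _ _ ih1 ih2 => exact ih1.seq ih2
  | caseN hs _ ih => exact Run.caseN (by rw [hf.extend_apply, hs]) ih
  | caseC hs _ ih =>
    exact Run.caseC (by rw [hf.extend_apply, hs]) (by rw [extend_update hf]; exact ih)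
  | loopN hs => exact Run.loopN (by rw [hf.extend_apply, hs])
  | loopC hs _ _ ih1 ih2 =>
    exact Run.loopC (by rw [hf.extend_apply, hs]) (by rw [extend_update hf]; exact ih1) ih2
  | mono _ hmn ih => exact ih.mono hmn

theorem Run.length_le [DecidableEq ι] {p : Prog ι} {s t : St ι} {n : ℕ} (h : Run A p s t n)
    (r : ι) : (t r).length ≤ (s r).length + n := by
  induction h with
  | skip s => omega
  | push r' b s =>
    by_cases h : r = r'
    · subst h; simp
    · rw [update_of_ne h]; omega
  | ask r' s =>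
    by_cases h : r = r'
    · subst h; simp
    · rw [update_of_ne h]; omega
  | seq _ _ ih1 ih2 => omega
  | caseN hs _ ih => omega
  | @caseC r' pn pb s t n b l hs _ ih =>
    by_cases h : r = r'
    · subst h; simp [hs] at ih ⊢; omega
    · rw [update_of_ne h] at ih; omega
  | loopN hs => omega
  | @loopC r' pb s t u m n b l hs _ _ ih1 ih2 =>
    by_cases h : r = r'
    · subst h; simp [hs] at ih1 ⊢; omega
    · rw [update_of_ne h] at ih1; omega
  | mono _ hmn ih => omega

/-- Programs without oracle. -/
def emb : Lib.helper21.Prog ι → Prog ι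
  | .skip => .skip
  | .push r b => .push r b
  | .seq p q => .seq (emb p) (emb q)
  | .case r pn pb => .case r (emb pn) fun b => emb (pb b)
  | .loop r pb => .loop r fun b => emb (pb b)

theorem run_emb [DecidableEq ι] {p : Lib.helper21.Prog ι} {s t : St ι} {n : ℕ}
    (h : Lib.helper21.Run p s t n) : Run A (emb p) s t n := by
  induction h with
  | skip s => exact Run.skip _
  | push r b s => exact Run.push _ _ _
  | seq _ _ ih1 ih2 => exact ih1.seq ih2
  | caseN hs _ ih => exact Run.caseN hs ih
  | caseC hs _ ih => exact Run.caseC hs ih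
  | loopN hs => exact Run.loopN hs
  | loopC hs _ _ ih1 ih2 => exact Run.loopC hs ih1 ih2
  | mono _ hmn ih => exact ih.mono hmn

/-- One oracle program turns `i a` into `o a`, in time polynomial in `z a`. -/
def RA (A : List Bool → Bool) (z : α → ℕ) (i o : α → List Bool) : Prop :=
  ∃ (ι : Type) (_ : Fintype ι) (_ : DecidableEq ι) (p : Prog (Option ι)) (T : α → ℕ),
    Bd z T ∧ ∀ a, Run A p (st (i a)) (st (o a)) (T a)

theorem RA.of {z : α → ℕ} {i o : α → List Bool} (h : RealT z i o) : RA A z i o := by
  obtain ⟨ι, _, _, p, T, hT, hp⟩ := h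
  exact ⟨ι, inferInstance, inferInstance, emb p, T, hT, fun a => run_emb (hp a)⟩

theorem Run.lift [DecidableEq ι] [DecidableEq κ] {p : Prog (Option ι)} {x y : List Bool} {n : ℕ}
    (h : Run A p (st x) (st y) n) {g : Option ι → κ} (hg : Injective g) (e : St κ)
    (he : ∀ j, e (g (some j)) = []) (hx : e (g none) = x) :
    Run A (p.map g) e (update e (g none) y) n := by
  refine (h.map hg e).cast ?_ ?_ le_rfl
  · funext k
    by_cases hk : ∃ a, g a = k
    · obtain ⟨a, rfl⟩ := hk
      rw [hg.extend_apply]
      cases a with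
      | none => exact hx.symm
      | some j => exact (he j).symm
    · rw [extend_apply' _ _ _ hk]
  · funext k
    by_cases hk : ∃ a, g a = k
    · obtain ⟨a, rfl⟩ := hk
      rw [hg.extend_apply]
      cases a with
      | none => simp [st]
      | some j => rw [update_of_ne (hg.ne (by simp)), he j]; rfl
    · have : k ≠ g none := fun h => hk ⟨none, h.symm⟩
      rw [extend_apply' _ _ _ hk, update_of_ne this]

theorem Run.lift_st [DecidableEq ι] [DecidableEq κ] {p : Prog (Option ι)} {x y : List Bool} {n : ℕ}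
    (h : Run A p (st x) (st y) n) {f : ι → κ} (hf : Injective f) :
    Run A (p.map (Option.map f)) (st x) (st y) n :=
  (h.lift (Option.map_injective hf) (st x) (fun _ => rfl) rfl).cast rfl (update_st x y) le_rfl

theorem RA.comp {z : α → ℕ} {i m o : α → List Bool} (h1 : RA A z i m) (h2 : RA A z m o) :
    RA A z i o := by
  obtain ⟨ι, _, _, p, T, hT, hp⟩ := h1
  obtain ⟨κ, _, _, q, U, hU, hq⟩ := h2
  exact ⟨ι ⊕ κ, inferInstance, inferInstance,
    .seq (p.map (Option.map Sum.inl)) (q.map (Option.map Sum.inr)), fun a => T a + U a + 1,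
    (hT.add hU).add (Bd.const _ _),
    fun a => ((hp a).lift_st Sum.inl_injective).seq ((hq a).lift_st Sum.inr_injective)⟩

theorem RA.ask (z : α → ℕ) (i : α → List Bool) : RA A z i fun a => A (i a) :: i a :=
  ⟨Unit, inferInstance, inferInstance, .ask none, fun _ => 1, Bd.const _ _,
    fun _ => (Run.ask none _).cast rfl (update_st _ _) le_rfl⟩

theorem RA.whileLoop {σ : Type} (e : σ → List Bool) (go : σ → Bool) (step : σ → σ)
    (hstep : RA A (fun s => (e s).length) e fun s => go (step s) :: e (step s))
    (z : α → ℕ) (init : α → σ) (N : α → ℕ) (hgo : ∀ a, ∀ j < N a, go (step^[j] (init a)) = true)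
    (hstop : ∀ a, go (step^[N a] (init a)) = false) (hN : Bd z N) (B : α → ℕ) (hB : Bd z B)
    (hsz : ∀ a, ∀ j < N a, (e (step^[j] (init a))).length ≤ B a) :
    RA A z (fun a => go (init a) :: e (init a)) fun a => e (step^[N a] (init a)) := by
  obtain ⟨ι, _, _, p, T, ⟨q, hT⟩, hp⟩ := hstep
  let body : Bool → Prog (Option (ι ⊕ Fin 3)) := fun _ => .case none .skip fun b =>
    cond b (.seq (p.map (Option.map Sum.inl)) (.push (rg 0) true)) .skip
  have key : ∀ (M : ℕ) (n : ℕ) (s : σ), (∀ j < n, go (step^[j] s) = true) →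
      go (step^[n] s) = false → (∀ j < n, (e (step^[j] s)).length ≤ M) →
      Run A (.loop (rg 0) body) (S4 (go s :: e s) [true] [] []) (S4 (e (step^[n] s)) [] [] [])
        (n * (q.eval M + 4) + 4) := by
    intro M n
    induction n with
    | zero =>
      intro s _ h2 _
      simp only [iterate_zero, id] at h2 ⊢
      rw [h2]
      refine Run.mono (Run.loopC (l := []) (b := true) (t := S4 (e s) [] [] []) (m := 2) rfl
        (Run.caseC (l := e s) (b := false) rfl ((Run.skip _).cast rfl ?_ le_rfl))
        (Run.loopN rfl)) ?_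
      · simp
      · simp
    | succ n ih =>
      intro s h1 h2 h3
      have hg : go s = true := h1 0 (by omega)
      have e1 := (hp s).lift (κ := Option (ι ⊕ Fin 3)) (Option.map_injective Sum.inl_injective)
        (S4 (e s) [] [] []) (fun _ => rfl) rfl
      have e2 := ih (step s) (fun j hj => h1 (j + 1) (by omega)) h2
        fun j hj => h3 (j + 1) (by omega)
      have hT' : T s ≤ q.eval M := (hT _).trans (eval_mono q (h3 0 (by omega)))
      rw [hg]
      refine Run.mono (Run.loopC (l := []) (b := true)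
        (t := S4 (go (step s) :: e (step s)) [true] [] []) (m := T s + 1 + 1 + 1) rfl
        (Run.caseC (l := e s) (b := true) rfl
          (((e1.cast ?_ rfl le_rfl).seq (Run.push _ _ _)).cast rfl ?_ le_rfl)) e2) ?_
      · simp
      · simp
      · rw [Nat.succ_mul]; omega
  refine ⟨ι ⊕ Fin 3, inferInstance, inferInstance, .seq (.push (rg 0) true) (.loop (rg 0) body),
    fun a => N a * (q.eval (B a) + 4) + 6,
    (hN.mul ((hB.poly q).add (Bd.const _ _))).add (Bd.const _ _), fun a => ?_⟩
  rw [st_eq_S4, st_eq_S4]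
  refine ((Run.push _ _ _).seq ((key (B a) (N a) (init a) (hgo a) (hstop a) (hsz a)).cast ?_ rfl
    le_rfl)).mono (by beta_reduce; omega)
  simp

theorem code_eq (x : List Bool) (k : ℕ) : code x k = Enc.enc (k, Raw.mk x) := by
  show _ = pairW (List.replicate k true) x
  unfold code pairW
  congr 1
  induction k with
  | zero => rfl
  | succ k ih => rw [Nat.mul_succ, List.replicate_succ, List.replicate_succ, ih]; rfl

theorem length_code (x : List Bool) (k : ℕ) : (code x k).length = 2 * k + x.length + 1 := by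
  simp [code]; omega

theorem poly_le (q : Polynomial ℕ) : ∃ a e, ∀ y, q.eval y ≤ a * (y + 1) ^ e := by
  induction q using Polynomial.induction_on' with
  | add p q hp hq =>
    obtain ⟨a, e, h⟩ := hp
    obtain ⟨a', e', h'⟩ := hq
    refine ⟨a + a', e + e', fun y => ?_⟩
    have h1 : (y + 1) ^ e ≤ (y + 1) ^ (e + e') := Nat.pow_le_pow_right (by omega) (by omega)
    have h2 : (y + 1) ^ e' ≤ (y + 1) ^ (e + e') := Nat.pow_le_pow_right (by omega) (by omega)
    rw [eval_add, add_mul]
    exact add_le_add ((h y).trans (Nat.mul_le_mul_left _ h1))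
      ((h' y).trans (Nat.mul_le_mul_left _ h2))
  | monomial k c =>
    exact ⟨c, k, fun y => by
      rw [eval_monomial]; exact Nat.mul_le_mul_left _ (Nat.pow_le_pow_left (by omega) _)⟩

theorem comp_pow {f : ℕ → ℕ} (hf : Computable f) (e : ℕ) : Computable fun k => f k ^ e := by
  induction e with
  | zero => exact Computable.const 1
  | succ e ih => exact Primrec.nat_mul.to_comp.comp ih hf

theorem Red.refl (L : Set (List Bool × ℕ)) : Red A L L :=
  ⟨.skip, fun k => k + 1, 0, Computable.succ, fun x k =>
    ⟨x, k, _, (Run.skip _).mono (by simp), rfl, by simp, Iff.rfl⟩⟩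

/-- Composition of a reduction with a polynomial-time oracle map. -/
theorem Red.trans {L L₁ L₂ : Set (List Bool × ℕ)} (h : Red A L L₁)
    (R : List Bool × ℕ → List Bool × ℕ) (a : ℕ)
    (hR : RA A (fun p : List Bool × ℕ => (code p.1 p.2).length) (fun p => code p.1 p.2)
      fun p => code (R p).1 (R p).2) (hk : ∀ p, (R p).2 ≤ (p.2 + a) ^ 2)
    (hL : ∀ p, p ∈ L₁ ↔ R p ∈ L₂) : Red A L L₂ := by
  obtain ⟨P, f, c, hf, hP⟩ := h
  obtain ⟨ι, _, _, Q, T, ⟨q, hT⟩, hQ⟩ := hR
  obtain ⟨b, e, hq⟩ := poly_le q
  let g : Option ι → ℕ := fun o => o.elim 0 fun j => 2 * (Fintype.equivFin ι j : ℕ) + 1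
  have hg : Injective g := by
    rintro (_ | i) (_ | j) h <;> simp only [g, Option.elim] at h
    · rfl
    · omega
    · omega
    · rw [(Fintype.equivFin ι).injective (a₁ := i) (a₂ := j) (Fin.ext (by omega))]
  have hd : Injective fun r : ℕ => 2 * r := fun r s h => by simpa using h
  have add : ∀ {u v : ℕ → ℕ}, Computable u → Computable v → Computable fun k => u k + v k :=
    fun hu hv => Primrec.nat_add.to_comp.comp hu hv
  have mul : ∀ {u v : ℕ → ℕ}, Computable u → Computable v → Computable fun k => u k * v k :=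
    fun hu hv => Primrec.nat_mul.to_comp.comp hu hv
  refine ⟨.seq (P.map fun r => 2 * r) (Q.map g),
    fun k => f k + b * (2 * k + 2 + f k) ^ e + 1 + (f k + a) ^ 2, (c + 1) * (e + 1),
    add (add (add hf (mul (.const _) (comp_pow (add (add (mul (.const _) .id) (.const _)) hf) _)))
      (.const _)) (comp_pow (add hf (.const _)) _), fun x k => ?_⟩
  obtain ⟨x', k', t, h1, h2, h3, h4⟩ := hP x k
  have h5 := h1.map hd fun _ => []
  have h6 := (hQ (x', k')).lift hg (extend (fun r : ℕ => 2 * r) t fun _ => [])
    (fun j => extend_apply' _ _ _ (by rintro ⟨r, hr⟩; simp only [g, Option.elim] at hr; omega))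
    ((hd.extend_apply t _ 0).trans h2)
  have h7 := h1.length_le 0
  rw [h2, if_pos rfl, length_code x] at h7
  refine ⟨(R (x', k')).1, (R (x', k')).2, _, (h5.seq h6).cast ?_ rfl ?_, update_self .., ?_,
    h4.trans (hL _)⟩
  · funext r
    by_cases hr : ∃ s, 2 * s = r
    · obtain ⟨s, rfl⟩ := hr
      rw [hd.extend_apply]
      simp
    · rw [extend_apply' _ _ _ hr, if_neg fun h => hr ⟨0, by omega⟩]
  · have h8 := (hT (x', k')).trans (hq _)
    set y := x.length + 1 with hy
    have p1 : y ^ c ≤ y ^ (c + 1) := Nat.pow_le_pow_right (by omega) (by omega)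
    have p2 : y ≤ y ^ (c + 1) := Nat.le_self_pow (by omega) _
    have p3 : y ^ c ≤ y ^ ((c + 1) * (e + 1)) := Nat.pow_le_pow_right (by omega) (by nlinarith)
    have p4 : 1 ≤ y ^ ((c + 1) * (e + 1)) := Nat.one_le_pow _ _ (by omega)
    have p5 : (code x' k').length + 1 ≤ (2 * k + 2 + f k) * y ^ (c + 1) := by
      have := Nat.mul_le_mul_left (f k) p1
      have := Nat.mul_le_mul_left (2 * k + 2) p2
      nlinarith
    have p6 : ((code x' k').length + 1) ^ e ≤ (2 * k + 2 + f k) ^ e * y ^ ((c + 1) * (e + 1)) := by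
      refine (Nat.pow_le_pow_left p5 e).trans ?_
      rw [mul_pow, ← pow_mul]
      exact Nat.mul_le_mul_left _ (Nat.pow_le_pow_right (by omega) (by nlinarith))
    have p7 := Nat.mul_le_mul_left b p6
    have p8 := Nat.mul_le_mul_left (f k) p3
    simp only at h8 ⊢
    rw [add_mul, add_mul, add_mul, mul_assoc]
    omega
  · have := (hk (x', k')).trans (Nat.pow_le_pow_left (Nat.add_le_add_right h3 a) 2)
    simp only at this ⊢
    omega

end Pool.Agent.P.MP_d3fb3e_lc
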