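import Pool.Agent.P.MP_d1c5a4_lc.Sip

/-! Pointers that are hard to guess, and the depth hierarchy theorem for many rows at once. -/

namespace Pool.Agent.P.MP_d3fb3e_lc

open Finset Classical Filter
open Pool.Agent.P.MP_d1c5a4_lc

variable {C P Q : Type} [DecidableEq C] [DecidableEq P]

/-- The possible histories of `i` successful guesses. -/
def hist (E0 : Finset (C × P)) (E : C → Finset (C × P)) : ℕ → Finset (Finset (C × P))
  | 0 => {∅}
  | i + 1 => (hist E0 E i).biUnion fun s =>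
      ((E0 ∪ s.biUnion fun e => E e.1).filter fun e => e.1 ∉ s.image Prod.fst).image
        fun e => insert e s

theorem hist_mem {E0 : Finset (C × P)} {E : C → Finset (C × P)} {i : ℕ} {s : Finset (C × P)}
    (h : s ∈ hist E0 E i) : s.card = i ∧ (s.image Prod.fst).card = i := by
  induction i generalizing s with
  | zero => simp_all [hist]
  | succ i ih =>
    obtain ⟨s, h1, h2⟩ := mem_biUnion.1 h
    obtain ⟨e, h3, rfl⟩ := mem_image.1 h2
    have h4 := (mem_filter.1 h3).2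
    rw [image_insert, card_insert_of_notMem fun h => h4 (mem_image_of_mem _ h),
      card_insert_of_notMem h4, (ih h1).1, (ih h1).2]
    exact ⟨rfl, rfl⟩

theorem hist_card {E0 : Finset (C × P)} {E : C → Finset (C × P)} {D r : ℕ} (h0 : E0.card ≤ D)
    (h1 : ∀ z, (E z).card ≤ D) {i : ℕ} (hi : i ≤ r) : (hist E0 E i).card ≤ ((r + 1) * D) ^ i := by
  induction i with
  | zero => simp [hist]
  | succ i ih =>
    rw [pow_succ]
    refine (card_biUnion_le_card_mul _ _ ((r + 1) * D) fun s hs => ?_).trans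
      (Nat.mul_le_mul_right _ (ih (by omega)))
    refine card_image_le.trans ((card_filter_le _ _).trans ((card_union_le _ _).trans ?_))
    have h2 := card_biUnion_le_card_mul s (fun e => E e.1) D fun e _ => h1 _
    rw [(hist_mem hs).1] at h2
    have h3 := Nat.mul_le_mul_right D (show i ≤ r by omega)
    rw [Nat.succ_mul]
    omega

theorem ptr_exists [Fintype C] [Fintype P] [Nonempty P] (Rt : Finset Q)
    (E0 : Q → Finset (C × P)) (E : C → Finset (C × P)) {D r : ℕ} (h0 : ∀ q ∈ Rt, (E0 q).card ≤ D)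
    (h1 : ∀ z, (E z).card ≤ D) (hlt : Rt.card * ((r + 1) * D) ^ r < Fintype.card P ^ r) :
    ∃ ω : C → P, ∀ q ∈ Rt, ∃ Y : Finset C, Y.card < r ∧ (∀ z, (z, ω z) ∈ E0 q → z ∈ Y) ∧
      ∀ z' ∈ Y, ∀ z, (z, ω z) ∈ E z' → z ∈ Y := by
  have hP : (0 : ℝ) < Fintype.card P := by exact_mod_cast Fintype.card_pos
  have a1 : ∀ q ∈ Rt, pr (fun ω : C → P => ∃ s ∈ hist (E0 q) E r, ∀ e ∈ s, ω e.1 = e.2) ≤
      ((r + 1) * D : ℕ) ^ r * (1 / (Fintype.card P : ℝ)) ^ r := fun q hq => by
    refine (pr_ex _ _ (ε := (1 / (Fintype.card P : ℝ)) ^ r) fun s hs => ?_).trans ?_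
    · rw [pr_congr (F := fun ω : C → P => ∀ z ∈ s.image Prod.fst, ∀ e ∈ s, e.1 = z → ω z = e.2)
        fun ω => ⟨fun h z _ e he hz => hz ▸ h e he,
          fun h e he => h _ (mem_image_of_mem _ he) e he rfl⟩,
        pr_pi_on _ fun z p => ∀ e ∈ s, e.1 = z → p = e.2]
      rw [← (hist_mem hs).2, ← prod_const]
      refine prod_le_prod (fun _ _ => pr_nonneg _) fun z hz => ?_
      obtain ⟨e, he, rfl⟩ := mem_image.1 hz
      exact (pr_mono fun p hp => hp e he rfl).trans_eq (pr_eq e.2)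
    · gcongr
      exact_mod_cast hist_card (h0 q hq) h1 le_rfl
  obtain ⟨ω, hω⟩ := exists_of_pr_lt ((pr_ex Rt _ a1).trans_lt (by
    rw [← mul_assoc, one_div, inv_pow, ← div_eq_mul_inv, div_lt_one (by positivity)]
    exact_mod_cast hlt))
  refine ⟨ω, fun q hq => ?_⟩
  have key : ∀ i, (∃ s ∈ hist (E0 q) E i, ∀ e ∈ s, ω e.1 = e.2) ∨ ∃ Y : Finset C, Y.card < i ∧
      (∀ z, (z, ω z) ∈ E0 q → z ∈ Y) ∧ ∀ z' ∈ Y, ∀ z, (z, ω z) ∈ E z' → z ∈ Y := by
    intro i
    induction i with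
    | zero => exact Or.inl ⟨∅, by simp [hist], by simp⟩
    | succ i ih =>
      rcases ih with ⟨s, h2, h3⟩ | ⟨Y, h2, h3⟩
      swap
      · exact Or.inr ⟨Y, by omega, h3⟩
      by_cases h4 : ∃ z, (z, ω z) ∈ E0 q ∪ s.biUnion (fun e => E e.1) ∧ z ∉ s.image Prod.fst
      · obtain ⟨z, h4, h5⟩ := h4
        refine Or.inl ⟨insert (z, ω z) s, mem_biUnion.2 ⟨s, h2, mem_image.2 ⟨_, mem_filter.2
          ⟨h4, h5⟩, rfl⟩⟩, ?_⟩
        simpa using fun a b h => h3 (a, b) h
      · push Not at h4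
        refine Or.inr ⟨s.image Prod.fst, card_image_le.trans_lt (by rw [(hist_mem h2).1]; omega),
          fun z hz => h4 z (mem_union_left _ hz), fun z' hz' z hz => ?_⟩
        obtain ⟨e, he, rfl⟩ := mem_image.1 hz'
        exact h4 z (mem_union_right _ (mem_biUnion.2 ⟨e, he, hz⟩))
  exact (key r).resolve_left fun h => hω ⟨q, hq, h⟩

/-- The variables of one row. -/
abbrev Vr (j L : ℕ) : Type := (Fin j → Ix L) × Fin L

/-- The function computed by one row. -/
def Sp {j L : ℕ} (f₀ : Fin j → Ix L) (x : Vr j L → Bool) : Prop :=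
  Tr (fun f => ∀ a, x (f, a) = true) j f₀

theorem multi (j W C : ℕ) : ∀ᶠ L : ℕ in atTop, ∀ (f₀ : Fin j → Ix L) (R : Type) [Fintype R]
    [DecidableEq R], Fintype.card R ≤ L ^ C → ∀ G : Fn (R × Vr j L), NN W (L ^ C) (j + 1) G →
    (∀ x, (∀ i, ¬ Sp f₀ fun v => x (i, v)) → ¬ G x) → ∃ a : R → Bool → Vr j L → Bool,
      (∀ i b, Sp f₀ (a i b) ↔ b = true) ∧ ∀ β : R → Bool, ¬ G fun p => a p.1 (β p.1) p.2 := by
  induction j generalizing W with
  | zero =>
    filter_upwards [eventually_gt_atTop W] with L hL f₀ R _ _ _ G ⟨P, _, h2, h3⟩ hG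
    refine ⟨fun _ b _ => b, fun i b => ⟨fun h => h ⟨0, by omega⟩, fun h _ => h⟩, fun β h => ?_⟩
    obtain ⟨g, hg⟩ := not_forall.1 ((h3 _).1 h)
    obtain ⟨hg, hg'⟩ := Classical.not_imp.1 hg
    obtain ⟨D, h4, h5⟩ := h2 g hg
    have h6 : ∀ i : R, ∃ a : Fin L, (i, f₀, a) ∉ D := fun i => by
      obtain ⟨v, hv, hv'⟩ := exists_mem_notMem_of_card_lt_card
        (t := univ.image fun a : Fin L => (i, f₀, a)) (s := D) (by
          rw [card_image_of_injective _ fun a b h => (Prod.ext_iff.1 (Prod.ext_iff.1 h).2).2]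
          simpa using h4.trans_lt hL)
      obtain ⟨a, -, rfl⟩ := mem_image.1 hv
      exact ⟨a, hv'⟩
    refine hG (fun p => decide (p ∈ D) && β p.1) (fun i h => ?_)
      ((h3 _).2 fun h => hg' (h5 _ _ (fun p hp => by simp [hp]) (h g hg)))
    obtain ⟨a, ha⟩ := h6 i
    simpa [ha] using h a
  | succ j ih =>
    obtain ⟨s, h1⟩ := red_ev (j + 1) W C 1 (δ := ((1 / 2) ^ (W * 1 + 1)) ^ (W * 1)) (by positivity)
      (pow_le_one₀ (by positivity) (pow_le_one₀ (by norm_num) (by norm_num)))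
    filter_upwards [h1, ih (s * 1), ev_ge 4, eventually_ge_atTop 1,
      ev_geom (ρ := 1 / 2) (by norm_num) (by norm_num) 4 (C + 4 * (j + 1)),
      ev_geom (ρ := 2 / 3) (by norm_num) (by norm_num) 4 (C + (4 * j + 1))]
      with L h1 h2 a1 a2 a3 a4 f₀ R _ _ hR G hf hG
    have hf' := hf.comp (φ := fun (x : (R × (Fin (j + 1) → Ix L)) × Fin L → Bool) p =>
      x ((p.1, p.2.1), p.2.2)) fun p => Jun.var _
    rw [mul_one] at hf'
    have h3 := h1 _ _ _ (sch2 (R × (Fin (j + 1) → Ix L)) L (L ^ 2))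
      (by simpa only [mul_one] using sch2_rich _ L (Nat.one_le_pow _ _ a2) W)
      (star_le (by linarith)) _ hf'
    have h4 := pr_ex (Ω := R × (Fin (j + 1) → Ix L) → (Fin L → Bool) × Fin (L ^ 2 + 1)) univ
      (fun B ω => (ω B).1 = fun _ => true) (ε := (1 / 2) ^ L) fun B _ => by
        have := pr_pi_on {B} fun _ (σ : (Fin L → Bool) × Fin (L ^ 2 + 1)) => σ.1 = fun _ => true
        simp only [mem_singleton, forall_eq, prod_singleton] at this
        rw [this, pr_fst fun u : Fin L → Bool => u = fun _ => true, pr_eq]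
        simp
    have h5 := pr_ex (Ω := R × (Fin (j + 1) → Ix L) → (Fin L → Bool) × Fin (L ^ 2 + 1)) univ
      (fun (γ : R × Vr j L) ω => ∀ r, ¬ (ω (γ.1, Fin.cons (γ.2.2, r) γ.2.1)).2 = 0)
      (ε := (2 / 3) ^ L) fun γ _ => by
        rw [pr_all_inj (ι := fun r => (γ.1, (Fin.cons (γ.2.2, r) γ.2.1 : Fin (j + 1) → Ix L)))
          (fun r r' h => (Prod.mk.inj (Fin.cons_injective2 (Prod.mk.inj h).2).1).2)
          fun σ : (Fin L → Bool) × Fin (L ^ 2 + 1) => ¬ σ.2 = 0,
          pr_snd fun a : Fin (L ^ 2 + 1) => ¬ a = 0, pr_not, pr_zero, Fintype.card_fin, pow_succ L 2]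
        refine pow_small (by positivity) (by
          rw [div_le_one (by positivity)]
          simp) ?_ L
        rw [mul_one_div, div_le_div_iff₀ two_pos (by positivity)]
        have : (1 : ℝ) ≤ ((L ^ 2 : ℕ) : ℝ) := by exact_mod_cast Nat.one_le_pow _ _ a2
        linarith
    have c1 : ∀ m : ℕ, ((Fintype.card (Fin m → Ix L) : ℕ) : ℝ) = (L : ℝ) ^ (4 * m) := fun m => by
      simp only [Fintype.card_fun, Fintype.card_prod, Fintype.card_fin]
      push_cast
      ring
    have c2 : (Fintype.card R : ℝ) ≤ (L : ℝ) ^ C := by exact_mod_cast hR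
    rw [card_univ, Fintype.card_prod, Nat.cast_mul, c1] at h4
    rw [card_univ, Fintype.card_prod, Fintype.card_prod, Nat.cast_mul, Nat.cast_mul, c1,
      Fintype.card_fin, ← pow_succ] at h5
    have h4' := h4.trans (mul_le_mul_of_nonneg_right
      (mul_le_mul_of_nonneg_right c2 (by positivity)) (by positivity))
    have h5' := h5.trans (mul_le_mul_of_nonneg_right
      (mul_le_mul_of_nonneg_right c2 (by positivity)) (by positivity))
    rw [← pow_add] at h4' h5'
    have h6 : 1 / (L : ℝ) ^ 1 ≤ 1 / 4 := by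
      rw [pow_one]
      exact one_div_le_one_div_of_le (by norm_num) a1
    obtain ⟨ω, hω⟩ := exists_of_pr_lt (((pr_or _ _).trans (add_le_add h3
      ((pr_or _ _).trans (add_le_add h4' h5')))).trans_lt (by linarith))
    simp only [not_or, not_not, mem_univ, true_and, not_exists, not_forall] at hω
    obtain ⟨g1, g2, g3⟩ := hω
    choose ρ hρ using g3
    let φ : R → (Vr j L → Bool) → (Fin (j + 1) → Ix L) → Bool := fun i y B =>
      decide ((B 0).2 = ρ (i, Fin.tail B, (B 0).1)) && !y (Fin.tail B, (B 0).1)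
    let ψ : R → (Vr j L → Bool) → Vr (j + 1) L → Bool := fun i y v =>
      (ω (i, v.1)).1 v.2 || (decide ((ω (i, v.1)).2 = 0) && φ i y v.1)
    have e : ∀ i y, Sp f₀ (ψ i y) ↔ Sp (Fin.tail f₀) y := fun i y => by
      rw [Sp, Sp, ← Fin.cons_self_tail f₀, Tr_cons, Fin.tail_cons]
      refine iff_of_eq (congrArg (fun ℓ => Tr ℓ j (Fin.tail f₀)) (funext fun g => propext ?_))
      have key : ∀ c : Ix L, (∀ a, ψ i y (Fin.cons c g, a) = true) ↔
          c.2 = ρ (i, g, c.1) ∧ y (g, c.1) = false := fun c => by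
        obtain ⟨a, ha⟩ := Function.ne_iff.1 (g2 (i, Fin.cons c g))
        simp only [ψ, φ, Fin.cons_zero, Fin.tail_cons, Bool.or_eq_true, Bool.and_eq_true,
          decide_eq_true_eq, Bool.not_eq_eq_eq_not, Bool.not_true]
        refine ⟨fun h => ((h a).resolve_left ha).2, fun h a => Or.inr ⟨?_, h⟩⟩
        have := hρ (i, g, c.1)
        rwa [← h.1] at this
      simp only [key, Prod.forall, not_and, forall_eq, Bool.not_eq_false]
    obtain ⟨a, b1, b2⟩ := h2 (Fin.tail f₀) R hR (fun y => G fun p => ψ p.1 (fun v => y (p.1, v)) p.2)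
      (g1.comp (φ := fun (y : R × Vr j L → Bool) B => φ B.1 (fun v => y (B.1, v)) B.2) fun B =>
        ⟨{(B.1, Fin.tail B.2, (B.2 0).1)}, by simp, fun x y h => by
          simp only [φ, h _ (mem_singleton_self _), imp_self]⟩)
      fun y hy => hG _ fun i h => hy i ((e i _).1 h)
    exact ⟨fun i b => ψ i (a i b), fun i b => (e i _).trans (b1 i b), b2⟩

end Pool.Agent.P.MP_d3fb3e_lc
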